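import Pool.Agent.H94.G6.M18

/-!
# MQ3 Lift: single-valued lifts of a curve to the monomial charts of a sheet (note 4592 (4))

`x = s ^ w.1 * t ^ w'.1`, `y = s ^ w.2 * t ^ w'.2`, where `w, w'` is a basis of the stabilizer of the sheet `k`.
-/

set_option autoImplicit false

open Topology Filter Metric

noncomputable section

namespace Pool.Agent.MQ3

variable {p : ℕ} {T : Fin p → ℂ × ℂ → ℂ} {a b : Equiv.Perm (Fin p)} {k : Fin p} {w w' : ℕ × ℕ} {U : Set ℂ} {x y q : ℂ → ℂ}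

/-- the determinant -/
def dt (w w' : ℕ × ℕ) : ℤ := w.1 * w'.2 - w.2 * w'.1

def sgf (w w' : ℕ × ℕ) (v : ℂ × ℂ) : ℂ := (w'.2 * v.1 - w'.1 * v.2) / (dt w w' : ℂ)

def taf (w w' : ℕ × ℕ) (v : ℂ × ℂ) : ℂ := (w.1 * v.2 - w.2 * v.1) / (dt w w' : ℂ)

theorem dt_cast : ((dt w w' : ℤ) : ℂ) = (w.1 : ℂ) * w'.2 - w.2 * w'.1 := by
  unfold dt
  push_cast
  ring

theorem sgf_taf₁ (hd : dt w w' ≠ 0) (v : ℂ × ℂ) : sgf w w' v * w.1 + taf w w' v * w'.1 = v.1 := by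
  have h1 : ((dt w w' : ℤ) : ℂ) ≠ 0 := by exact_mod_cast hd
  rw [sgf, taf]
  rw [div_mul_eq_mul_div, div_mul_eq_mul_div, ← add_div, div_eq_iff h1, dt_cast]
  ring

theorem sgf_taf₂ (hd : dt w w' ≠ 0) (v : ℂ × ℂ) : sgf w w' v * w.2 + taf w w' v * w'.2 = v.2 := by
  have h1 : ((dt w w' : ℤ) : ℂ) ≠ 0 := by exact_mod_cast hd
  rw [sgf, taf]
  rw [div_mul_eq_mul_div, div_mul_eq_mul_div, ← add_div, div_eq_iff h1, dt_cast]
  ring

theorem sgf_add (v v' : ℂ × ℂ) : sgf w w' (v + v') = sgf w w' v + sgf w w' v' := by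
  simp only [sgf, Prod.fst_add, Prod.snd_add]
  ring

theorem taf_add (v v' : ℂ × ℂ) : taf w w' (v + v') = taf w w' v + taf w w' v' := by
  simp only [taf, Prod.fst_add, Prod.snd_add]
  ring

/-- the value at an integral combination of the basis -/
theorem sgf_comb (hd : dt w w' ≠ 0) (α β c : ℂ) : sgf w w' ((α * w.1 + β * w'.1) * c, (α * w.2 + β * w'.2) * c) = α * c := by
  have h1 : ((dt w w' : ℤ) : ℂ) ≠ 0 := by exact_mod_cast hd
  rw [sgf, div_eq_iff h1, dt_cast]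
  ring

theorem taf_comb (hd : dt w w' ≠ 0) (α β c : ℂ) : taf w w' ((α * w.1 + β * w'.1) * c, (α * w.2 + β * w'.2) * c) = β * c := by
  have h1 : ((dt w w' : ℤ) : ℂ) ≠ 0 := by exact_mod_cast hd
  rw [taf, div_eq_iff h1, dt_cast]
  ring

/-- `w, w'` is a basis of the stabilizer of the sheet `k` -/
structure Basis (a b : Equiv.Perm (Fin p)) (k : Fin p) (w w' : ℕ × ℕ) : Prop where
  det : dt w w' ≠ 0
  mem : (a ^ (w.1 : ℤ) * b ^ (w.2 : ℤ)) k = k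
  mem' : (a ^ (w'.1 : ℤ) * b ^ (w'.2 : ℤ)) k = k
  gen : ∀ m n : ℤ, (a ^ m * b ^ n) k = k → ∃ α β : ℤ, m = α * w.1 + β * w'.1 ∧ n = α * w.2 + β * w'.2

/-- the curve and its slope -/
structure Crv (T : Fin p → ℂ × ℂ → ℂ) (U : Set ℂ) (x y q : ℂ → ℂ) : Prop where
  op : IsOpen U
  x_an : ∀ z ∈ U, AnalyticAt ℂ x z
  y_an : ∀ z ∈ U, AnalyticAt ℂ y z
  x_lt : ∀ z ∈ U, ‖x z‖ < 1
  y_lt : ∀ z ∈ U, ‖y z‖ < 1
  ne : ∀ z ∈ U, ∀ᶠ z' in 𝓝[≠] z, x z' ≠ 0 ∧ y z' ≠ 0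
  q_an : ∀ z ∈ U, x z ≠ 0 → y z ≠ 0 → AnalyticAt ℂ q z
  root : ∀ z ∈ U, x z ≠ 0 → y z ≠ 0 → ∀ ξ η : ℂ, Complex.exp ξ = x z → Complex.exp η = y z → ∃ i, q z = T i (ξ, η)

/-- the points with the slope of the sheet `k` -/
def Uk (T : Fin p → ℂ × ℂ → ℂ) (k : Fin p) (U : Set ℂ) (x y q : ℂ → ℂ) : Set ℂ :=
  {z | z ∈ U ∧ x z ≠ 0 ∧ y z ≠ 0 ∧ ∃ v : ℂ × ℂ, Complex.exp v.1 = x z ∧ Complex.exp v.2 = y z ∧ q z = T k v}

theorem HH_of_exp {v : ℂ × ℂ} {z : ℂ} (hx : ‖x z‖ < 1) (hy : ‖y z‖ < 1) (h1 : Complex.exp v.1 = x z) (h2 : Complex.exp v.2 = y z) : v ∈ HH := by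
  constructor
  · rw [← h1, Complex.norm_exp, Real.exp_lt_one_iff] at hx
    exact hx
  · rw [← h2, Complex.norm_exp, Real.exp_lt_one_iff] at hy
    exact hy

theorem exists_per {v v' : ℂ × ℂ} (h1 : Complex.exp v'.1 = Complex.exp v.1) (h2 : Complex.exp v'.2 = Complex.exp v.2) :
    ∃ m n : ℤ, v' = v + per m n := by
  obtain ⟨m, hm⟩ := Complex.exp_eq_exp_iff_exists_int.1 h1
  obtain ⟨n, hn⟩ := Complex.exp_eq_exp_iff_exists_int.1 h2
  exact ⟨m, n, Prod.ext hm hn⟩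

theorem exp_per₁ (v : ℂ × ℂ) (m n : ℤ) : Complex.exp (v + per m n).1 = Complex.exp v.1 := by
  show Complex.exp (v.1 + (m : ℂ) * (2 * Real.pi * Complex.I)) = _
  exact Complex.exp_periodic.int_mul m v.1

theorem exp_per₂ (v : ℂ × ℂ) (m n : ℤ) : Complex.exp (v + per m n).2 = Complex.exp v.2 := by
  show Complex.exp (v.2 + (n : ℂ) * (2 * Real.pi * Complex.I)) = _
  exact Complex.exp_periodic.int_mul n v.2

/-- two lifts with the slope of the same sheet differ by a period of the sheet -/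
theorem WebBox.uniq (h : WebBox p T a b) (hB : Basis a b k w w') {v v' : ℂ × ℂ} (hv : v ∈ HH) (h1 : Complex.exp v'.1 = Complex.exp v.1)
    (h2 : Complex.exp v'.2 = Complex.exp v.2) (h3 : T k v' = T k v) :
    ∃ α β : ℤ, v' = v + per (α * w.1 + β * w'.1) (α * w.2 + β * w'.2) := by
  obtain ⟨m, n, hmn⟩ := exists_per h1 h2
  rw [hmn, h.mon k hv] at h3
  obtain ⟨α, β, rfl, rfl⟩ := hB.gen m n (h.inj _ hv _ _ h3)
  exact ⟨α, β, hmn⟩

theorem sgf_per (hd : dt w w' ≠ 0) (α β : ℤ) : sgf w w' (per (α * w.1 + β * w'.1) (α * w.2 + β * w'.2)) = α * (2 * Real.pi * Complex.I) := by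
  rw [per]
  push_cast
  exact sgf_comb hd _ _ _

theorem taf_per (hd : dt w w' ≠ 0) (α β : ℤ) : taf w w' (per (α * w.1 + β * w'.1) (α * w.2 + β * w'.2)) = β * (2 * Real.pi * Complex.I) := by
  rw [per]
  push_cast
  exact taf_comb hd _ _ _

open Classical in
/-- the lift -/
def s0 (T : Fin p → ℂ × ℂ → ℂ) (k : Fin p) (w w' : ℕ × ℕ) (U : Set ℂ) (x y q : ℂ → ℂ) (z : ℂ) : ℂ :=
  if h : z ∈ Uk T k U x y q then Complex.exp (sgf w w' h.2.2.2.choose) else 0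

open Classical in
def t0 (T : Fin p → ℂ × ℂ → ℂ) (k : Fin p) (w w' : ℕ × ℕ) (U : Set ℂ) (x y q : ℂ → ℂ) (z : ℂ) : ℂ :=
  if h : z ∈ Uk T k U x y q then Complex.exp (taf w w' h.2.2.2.choose) else 0

theorem st_eq (h : WebBox p T a b) (hB : Basis a b k w w') (hC : Crv T U x y q) {z : ℂ} (hz : z ∈ U) (hx : x z ≠ 0) (hy : y z ≠ 0) {v : ℂ × ℂ}
    (h1 : Complex.exp v.1 = x z) (h2 : Complex.exp v.2 = y z) (h3 : q z = T k v) :
    s0 T k w w' U x y q z = Complex.exp (sgf w w' v) ∧ t0 T k w w' U x y q z = Complex.exp (taf w w' v) := by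
  have hm : z ∈ Uk T k U x y q := ⟨hz, hx, hy, v, h1, h2, h3⟩
  obtain ⟨g1, g2, g3⟩ := hm.2.2.2.choose_spec
  have hv : v ∈ HH := HH_of_exp (hC.x_lt z hz) (hC.y_lt z hz) h1 h2
  obtain ⟨α, β, hab⟩ := h.uniq hB hv (g1.trans h1.symm) (g2.trans h2.symm) (g3.symm.trans h3)
  constructor
  · rw [s0, dif_pos hm, hab, sgf_add, sgf_per hB.det]
    exact Complex.exp_periodic.int_mul α _
  · rw [t0, dif_pos hm, hab, taf_add, taf_per hB.det]
    exact Complex.exp_periodic.int_mul β _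

/-- local form of an analytic function -/
theorem exists_loc {f : ℂ → ℂ} {z₀ : ℂ} (hf : AnalyticAt ℂ f z₀) (hne : ∀ᶠ z in 𝓝[≠] z₀, f z ≠ 0) :
    ∃ (m : ℕ) (X : ℂ → ℂ), AnalyticAt ℂ X z₀ ∧ analyticOrderAt f z₀ = m ∧ ∀ᶠ z in 𝓝 z₀, f z = (z - z₀) ^ m * Complex.exp (X z) := by
  have h1 : analyticOrderAt f z₀ ≠ ⊤ := by
    intro h2
    rw [analyticOrderAt_eq_top] at h2
    have h3 : ∀ᶠ z in 𝓝[≠] z₀, False := by
      filter_upwards [hne, h2.filter_mono nhdsWithin_le_nhds] with z h4 h5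
      exact h4 h5
    rw [Filter.eventually_false_iff_eq_bot] at h3
    exact (NormedField.nhdsNE_neBot z₀).ne h3
  obtain ⟨m, hm⟩ := ENat.ne_top_iff_exists.1 h1
  obtain ⟨g, hg, hg0, hev⟩ := (hf.analyticOrderAt_eq_natCast).1 hm.symm
  have hX : AnalyticAt ℂ (fun z => Complex.log (g z₀) + Complex.log (g z / g z₀)) z₀ := by
    refine analyticAt_const.add ?_
    refine AnalyticAt.clog (hg.div analyticAt_const hg0) ?_
    rw [div_self hg0]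
    exact Complex.one_mem_slitPlane
  refine ⟨m, _, hX, hm.symm, ?_⟩
  filter_upwards [hev, hg.continuousAt.eventually_ne hg0] with z hz hgz
  rw [hz, smul_eq_mul, Complex.exp_add, Complex.exp_log hg0, Complex.exp_log (div_ne_zero hgz hg0), mul_div_cancel₀ _ hg0]

/-- local form of the curve -/
theorem Crv.loc (hC : Crv T U x y q) {z₀ : ℂ} (hz₀ : z₀ ∈ U) :
    ∃ (r : ℝ) (m n : ℕ) (X Y : ℂ → ℂ), 0 < r ∧ analyticOrderAt x z₀ = m ∧ analyticOrderAt y z₀ = n ∧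
      ∀ z ∈ ball z₀ r, z ∈ U ∧ AnalyticAt ℂ X z ∧ AnalyticAt ℂ Y z ∧ x z = (z - z₀) ^ m * Complex.exp (X z) ∧
        y z = (z - z₀) ^ n * Complex.exp (Y z) := by
  obtain ⟨m, X, hX, hm, hxe⟩ := exists_loc (hC.x_an z₀ hz₀) ((hC.ne z₀ hz₀).mono fun z hz => hz.1)
  obtain ⟨n, Y, hY, hn, hye⟩ := exists_loc (hC.y_an z₀ hz₀) ((hC.ne z₀ hz₀).mono fun z hz => hz.2)
  have hev : ∀ᶠ z in 𝓝 z₀, z ∈ U ∧ AnalyticAt ℂ X z ∧ AnalyticAt ℂ Y z ∧ x z = (z - z₀) ^ m * Complex.exp (X z) ∧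
        y z = (z - z₀) ^ n * Complex.exp (Y z) := by
    filter_upwards [hC.op.mem_nhds hz₀, hX.eventually_analyticAt, hY.eventually_analyticAt, hxe, hye] with z h1 h2 h3 h4 h5
    exact ⟨h1, h2, h3, h4, h5⟩
  obtain ⟨r, hr, hb⟩ := Metric.eventually_nhds_iff_ball.1 hev
  exact ⟨r, m, n, X, Y, hr, hm, hn, hb⟩

theorem order_zero {f : ℂ → ℂ} {z₀ : ℂ} {m : ℕ} {X : ℂ → ℂ} (h : f z₀ = (z₀ - z₀) ^ m * Complex.exp (X z₀)) (h0 : f z₀ ≠ 0) : m = 0 := by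
  by_contra hm
  rw [sub_self, zero_pow hm, zero_mul] at h
  exact h0 h

/-- near a point of `Uk` -/
theorem nbh (h : WebBox p T a b) (hB : Basis a b k w w') (hC : Crv T U x y q) {z₀ : ℂ} (hz₀ : z₀ ∈ Uk T k U x y q) :
    ∃ (r : ℝ) (G H : ℂ → ℂ), 0 < r ∧ ∀ z ∈ ball z₀ r, z ∈ Uk T k U x y q ∧ AnalyticAt ℂ G z ∧ AnalyticAt ℂ H z ∧
      s0 T k w w' U x y q z = Complex.exp (G z) ∧ t0 T k w w' U x y q z = Complex.exp (H z) := by
  obtain ⟨hU, hx0, hy0, v, hv1, hv2, hv3⟩ := hz₀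
  obtain ⟨r, m, n, X, Y, hr, -, -, hb⟩ := hC.loc hU
  have hz0 := hb z₀ (mem_ball_self hr)
  have hm : m = 0 := order_zero hz0.2.2.2.1 hx0
  have hn : n = 0 := order_zero hz0.2.2.2.2 hy0
  subst hm
  subst hn
  simp only [pow_zero, one_mul] at hb hz0
  have hne : ∀ z ∈ ball z₀ r, x z ≠ 0 ∧ y z ≠ 0 := by
    intro z hz
    obtain ⟨-, -, -, h1, h2⟩ := hb z hz
    exact ⟨by rw [h1]; exact Complex.exp_ne_zero _, by rw [h2]; exact Complex.exp_ne_zero _⟩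
  have hmem : ∀ z ∈ ball z₀ r, (X z, Y z) ∈ HH := fun z hz =>
    HH_of_exp (hC.x_lt z (hb z hz).1) (hC.y_lt z (hb z hz).1) (hb z hz).2.2.2.1.symm (hb z hz).2.2.2.2.symm
  obtain ⟨i, hi⟩ := h.index (convex_ball z₀ r).isPreconnected ⟨z₀, mem_ball_self hr⟩ (v := fun z => (X z, Y z)) (Q := q)
    (fun z hz => ((hb z hz).2.1.continuousAt.prodMk (hb z hz).2.2.1.continuousAt).continuousWithinAt) hmem
    (fun z hz => (hC.q_an z (hb z hz).1 (hne z hz).1 (hne z hz).2).continuousAt.continuousWithinAt)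
    (fun z hz => hC.root z (hb z hz).1 (hne z hz).1 (hne z hz).2 _ _ (hb z hz).2.2.2.1.symm (hb z hz).2.2.2.2.symm)
  obtain ⟨m', n', hmn⟩ := exists_per (v := (X z₀, Y z₀)) (v' := v) (hv1.trans hz0.2.2.2.1) (hv2.trans hz0.2.2.2.2)
  have hik : i = (a ^ m' * b ^ n') k := by
    refine h.inj _ (hmem z₀ (mem_ball_self hr)) _ _ ?_
    rw [← hi z₀ (mem_ball_self hr), hv3, hmn, h.mon k (hmem z₀ (mem_ball_self hr))]
  have hgood : ∀ z ∈ ball z₀ r, q z = T k ((X z, Y z) + per m' n') := by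
    intro z hz
    rw [h.mon k (hmem z hz), ← hik]
    exact hi z hz
  refine ⟨r, fun z => sgf w w' ((X z, Y z) + per m' n'), fun z => taf w w' ((X z, Y z) + per m' n'), hr, fun z hz => ?_⟩
  have e1 : Complex.exp ((X z, Y z) + per m' n').1 = x z := by rw [exp_per₁]; exact (hb z hz).2.2.2.1.symm
  have e2 : Complex.exp ((X z, Y z) + per m' n').2 = y z := by rw [exp_per₂]; exact (hb z hz).2.2.2.2.symm
  obtain ⟨e3, e4⟩ := st_eq h hB hC (hb z hz).1 (hne z hz).1 (hne z hz).2 e1 e2 (hgood z hz)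
  refine ⟨⟨(hb z hz).1, (hne z hz).1, (hne z hz).2, _, e1, e2, hgood z hz⟩, ?_, ?_, e3, e4⟩
  · simp only [sgf, Prod.fst_add, Prod.snd_add]
    exact ((analyticAt_const.mul ((hb z hz).2.1.add analyticAt_const)).sub
      (analyticAt_const.mul ((hb z hz).2.2.1.add analyticAt_const))).div_const
  · simp only [taf, Prod.fst_add, Prod.snd_add]
    exact ((analyticAt_const.mul ((hb z hz).2.2.1.add analyticAt_const)).sub
      (analyticAt_const.mul ((hb z hz).2.1.add analyticAt_const))).div_const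

/-- near a point of `U`: one sheet (up to monodromy) -/
theorem punc (h : WebBox p T a b) (hC : Crv T U x y q) {z₀ : ℂ} (hz₀ : z₀ ∈ U) :
    ∃ (r : ℝ) (m n : ℕ) (X Y : ℂ → ℂ) (i : Fin p), 0 < r ∧ analyticOrderAt x z₀ = m ∧ analyticOrderAt y z₀ = n ∧
      (a ^ (m : ℤ) * b ^ (n : ℤ)) i = i ∧
      (∀ z ∈ ball z₀ r, z ∈ U ∧ AnalyticAt ℂ X z ∧ AnalyticAt ℂ Y z ∧ x z = (z - z₀) ^ m * Complex.exp (X z) ∧
        y z = (z - z₀) ^ n * Complex.exp (Y z)) ∧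
      ∀ ζ : ℂ, z₀ + Complex.exp ζ ∈ ball z₀ r → x (z₀ + Complex.exp ζ) ≠ 0 ∧ y (z₀ + Complex.exp ζ) ≠ 0 ∧
        Complex.exp (m * ζ + X (z₀ + Complex.exp ζ)) = x (z₀ + Complex.exp ζ) ∧
        Complex.exp (n * ζ + Y (z₀ + Complex.exp ζ)) = y (z₀ + Complex.exp ζ) ∧
        q (z₀ + Complex.exp ζ) = T i (m * ζ + X (z₀ + Complex.exp ζ), n * ζ + Y (z₀ + Complex.exp ζ)) := by
  obtain ⟨r, m, n, X, Y, hr, hm, hn, hb⟩ := hC.loc hz₀
  have he : ∀ ζ : ℂ, z₀ + Complex.exp ζ ∈ ball z₀ r →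
      Complex.exp (m * ζ + X (z₀ + Complex.exp ζ)) = x (z₀ + Complex.exp ζ) ∧
        Complex.exp (n * ζ + Y (z₀ + Complex.exp ζ)) = y (z₀ + Complex.exp ζ) := by
    intro ζ hζ
    obtain ⟨-, -, -, h1, h2⟩ := hb _ hζ
    rw [h1, h2, add_sub_cancel_left, Complex.exp_add, Complex.exp_add, Complex.exp_nat_mul, Complex.exp_nat_mul]
    exact ⟨rfl, rfl⟩
  have hne : ∀ ζ : ℂ, z₀ + Complex.exp ζ ∈ ball z₀ r → x (z₀ + Complex.exp ζ) ≠ 0 ∧ y (z₀ + Complex.exp ζ) ≠ 0 := by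
    intro ζ hζ
    obtain ⟨h1, h2⟩ := he ζ hζ
    rw [← h1, ← h2]
    exact ⟨Complex.exp_ne_zero _, Complex.exp_ne_zero _⟩
  set S : Set ℂ := {ζ | ζ.re < Real.log r} with hS
  have hSc : Convex ℝ S := convex_halfSpace_lt Complex.reLm.isLinear _
  have hmS : ∀ ζ : ℂ, ζ ∈ S ↔ z₀ + Complex.exp ζ ∈ ball z₀ r := by
    intro ζ
    rw [mem_ball, dist_eq_norm, add_sub_cancel_left, Complex.norm_exp, hS, Set.mem_ofPred_eq, Real.lt_log_iff_exp_lt hr]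
  have hne' : S.Nonempty := ⟨((Real.log r - 1 : ℝ) : ℂ), by rw [hS, Set.mem_ofPred_eq, Complex.ofReal_re]; linarith⟩
  have hHH : ∀ ζ ∈ S, ((m * ζ + X (z₀ + Complex.exp ζ), n * ζ + Y (z₀ + Complex.exp ζ)) : ℂ × ℂ) ∈ HH := by
    intro ζ hζ
    have h1 := (hmS ζ).1 hζ
    exact HH_of_exp (hC.x_lt _ (hb _ h1).1) (hC.y_lt _ (hb _ h1).1) (he ζ h1).1 (he ζ h1).2
  have hec : Continuous fun ζ : ℂ => z₀ + Complex.exp ζ := by fun_prop
  obtain ⟨i, hi⟩ := h.index hSc.isPreconnected hne' (v := fun ζ => (m * ζ + X (z₀ + Complex.exp ζ), n * ζ + Y (z₀ + Complex.exp ζ)))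
    (Q := fun ζ => q (z₀ + Complex.exp ζ))
    (fun ζ hζ => by
      have h1 := (hmS ζ).1 hζ
      have h2 : ContinuousAt (fun ζ => X (z₀ + Complex.exp ζ)) ζ := ContinuousAt.comp (f := fun ζ => z₀ + Complex.exp ζ) (g := X) (hb _ h1).2.1.continuousAt hec.continuousAt
      have h3 : ContinuousAt (fun ζ => Y (z₀ + Complex.exp ζ)) ζ := ContinuousAt.comp (f := fun ζ => z₀ + Complex.exp ζ) (g := Y) (hb _ h1).2.2.1.continuousAt hec.continuousAt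
      exact (((continuousAt_const.mul continuousAt_id).add h2).prodMk ((continuousAt_const.mul continuousAt_id).add h3)).continuousWithinAt)
    hHH
    (fun ζ hζ => by
      have h1 := (hmS ζ).1 hζ
      exact (ContinuousAt.comp (f := fun ζ => z₀ + Complex.exp ζ) (g := q) (hC.q_an _ (hb _ h1).1 (hne ζ h1).1 (hne ζ h1).2).continuousAt
        hec.continuousAt).continuousWithinAt)
    (fun ζ hζ => by
      have h1 := (hmS ζ).1 hζ
      exact hC.root _ (hb _ h1).1 (hne ζ h1).1 (hne ζ h1).2 _ _ (he ζ h1).1 (he ζ h1).2)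
  refine ⟨r, m, n, X, Y, i, hr, hm, hn, ?_, hb, fun ζ hζ => ?_⟩
  · obtain ⟨ζ, hζ⟩ := hne'
    have hζ' : ζ + 2 * Real.pi * Complex.I ∈ S := by
      have h1 : (2 * (Real.pi : ℂ) * Complex.I).re = 0 := by simp
      rw [hS, Set.mem_ofPred_eq, Complex.add_re, h1, add_zero]
      exact hζ
    have hee : Complex.exp (ζ + 2 * Real.pi * Complex.I) = Complex.exp ζ := by
      rw [Complex.exp_add, Complex.exp_two_pi_mul_I, mul_one]
    have h1 := hi ζ hζ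
    have h2 := hi _ hζ'
    rw [hee] at h2
    have h3 : ((m * (ζ + 2 * Real.pi * Complex.I) + X (z₀ + Complex.exp ζ), n * (ζ + 2 * Real.pi * Complex.I) + Y (z₀ + Complex.exp ζ)) : ℂ × ℂ) =
        (m * ζ + X (z₀ + Complex.exp ζ), n * ζ + Y (z₀ + Complex.exp ζ)) + per (m : ℤ) (n : ℤ) := by
      rw [per, Prod.mk_add_mk]
      push_cast
      refine Prod.ext ?_ ?_
      · simp only
        ring
      · simp only
        ring
    rw [h3, h.mon i (hHH ζ hζ), h1] at h2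
    exact h.inj _ (hHH ζ hζ) _ _ h2.symm
  · exact ⟨(hne ζ hζ).1, (hne ζ hζ).2, (he ζ hζ).1, (he ζ hζ).2, hi ζ ((hmS ζ).2 hζ)⟩

theorem comm_ab (hab : Commute a b) (m n m' n' : ℤ) : Commute (a ^ m * b ^ n) (a ^ m' * b ^ n') := by
  have h1 : Commute (a ^ m) (a ^ m' * b ^ n') := ((Commute.refl a).zpow_zpow m m').mul_right (hab.zpow_zpow m n')
  have h2 : Commute (b ^ n) (a ^ m' * b ^ n') := (hab.symm.zpow_zpow n m').mul_right ((Commute.refl b).zpow_zpow n n')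
  exact h1.mul_left h2

/-- near a point in the closure of `Uk` -/
theorem punc_k (h : WebBox p T a b) (hB : Basis a b k w w') (hC : Crv T U x y q) {z₀ : ℂ} (hz₀ : z₀ ∈ U)
    (hf : ∃ᶠ z in 𝓝[≠] z₀, z ∈ Uk T k U x y q) :
    ∃ (r : ℝ) (m n : ℕ) (α β : ℤ) (G H : ℂ → ℂ), 0 < r ∧ analyticOrderAt x z₀ = m ∧ analyticOrderAt y z₀ = n ∧
      (m : ℤ) = α * w.1 + β * w'.1 ∧ (n : ℤ) = α * w.2 + β * w'.2 ∧ (∀ z ∈ ball z₀ r, AnalyticAt ℂ G z ∧ AnalyticAt ℂ H z) ∧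
      ∀ z ∈ ball z₀ r, z ≠ z₀ → z ∈ Uk T k U x y q ∧ s0 T k w w' U x y q z = (z - z₀) ^ α * Complex.exp (G z) ∧
        t0 T k w w' U x y q z = (z - z₀) ^ β * Complex.exp (H z) := by
  obtain ⟨r, m, n, X, Y, i, hr, hm, hn, hi, hb, hζ⟩ := punc h hC hz₀
  have hlog : ∀ z, z ≠ z₀ → z₀ + Complex.exp (Complex.log (z - z₀)) = z := by
    intro z hz
    rw [Complex.exp_log (sub_ne_zero.2 hz), add_sub_cancel]
  have hball : ∀ᶠ z in 𝓝[≠] z₀, z ∈ ball z₀ r ∧ z ≠ z₀ :=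
    (eventually_nhdsWithin_of_eventually_nhds (ball_mem_nhds z₀ hr)).and (eventually_mem_nhdsWithin.mono fun z hz => hz)
  obtain ⟨z₁, hz₁, hz₁b, hz₁n⟩ := (hf.and_eventually hball).exists
  obtain ⟨hU₁, hx₁, hy₁, v₁, e1, e2, e3⟩ := hz₁
  have hζ₁ := hζ (Complex.log (z₁ - z₀)) (by rw [hlog z₁ hz₁n]; exact hz₁b)
  rw [hlog z₁ hz₁n] at hζ₁
  obtain ⟨-, -, g1, g2, g3⟩ := hζ₁
  set ζ₁ := Complex.log (z₁ - z₀) with hζdef
  have hHH₁ : ((m * ζ₁ + X z₁, n * ζ₁ + Y z₁) : ℂ × ℂ) ∈ HH := HH_of_exp (hC.x_lt _ hU₁) (hC.y_lt _ hU₁) g1 g2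
  obtain ⟨m', n', hmn⟩ := exists_per (v := (m * ζ₁ + X z₁, n * ζ₁ + Y z₁)) (v' := v₁) (e1.trans g1.symm) (e2.trans g2.symm)
  have hik : i = (a ^ m' * b ^ n') k := by
    refine h.inj _ hHH₁ _ _ ?_
    rw [← g3, e3, hmn, h.mon k hHH₁]
  have hstab : (a ^ (m : ℤ) * b ^ (n : ℤ)) k = k := by
    have h1 := comm_ab h.comm (m : ℤ) (n : ℤ) m' n'
    rw [hik] at hi
    have h2 : (a ^ m' * b ^ n') ((a ^ (m : ℤ) * b ^ (n : ℤ)) k) = (a ^ m' * b ^ n') k := by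
      rw [← Equiv.Perm.mul_apply, ← h1.eq, Equiv.Perm.mul_apply]
      exact hi
    exact (a ^ m' * b ^ n').injective h2
  obtain ⟨α, β, hα, hβ⟩ := hB.gen _ _ hstab
  refine ⟨r, m, n, α, β, fun z => sgf w w' ((X z, Y z) + per m' n'), fun z => taf w w' ((X z, Y z) + per m' n'), hr, hm, hn, hα, hβ, ?_, ?_⟩
  · intro z hz
    constructor
    · simp only [sgf, Prod.fst_add, Prod.snd_add]
      exact ((analyticAt_const.mul ((hb z hz).2.1.add analyticAt_const)).sub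
        (analyticAt_const.mul ((hb z hz).2.2.1.add analyticAt_const))).div_const
    · simp only [taf, Prod.fst_add, Prod.snd_add]
      exact ((analyticAt_const.mul ((hb z hz).2.2.1.add analyticAt_const)).sub
        (analyticAt_const.mul ((hb z hz).2.1.add analyticAt_const))).div_const
  · intro z hz hzn
    have hζz := hζ (Complex.log (z - z₀)) (by rw [hlog z hzn]; exact hz)
    rw [hlog z hzn] at hζz
    set ζ := Complex.log (z - z₀) with hζd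
    obtain ⟨hx, hy, f1, f2, f3⟩ := hζz
    have hHH : ((m * ζ + X z, n * ζ + Y z) : ℂ × ℂ) ∈ HH := HH_of_exp (hC.x_lt _ (hb z hz).1) (hC.y_lt _ (hb z hz).1) f1 f2
    have f4 : q z = T k ((m * ζ + X z, n * ζ + Y z) + per m' n') := by
      rw [h.mon k hHH, ← hik]
      exact f3
    have f5 : Complex.exp ((m * ζ + X z, n * ζ + Y z) + per m' n').1 = x z := by rw [exp_per₁]; exact f1
    have f6 : Complex.exp ((m * ζ + X z, n * ζ + Y z) + per m' n').2 = y z := by rw [exp_per₂]; exact f2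
    obtain ⟨f7, f8⟩ := st_eq h hB hC (hb z hz).1 hx hy f5 f6 f4
    have hvec : ((m * ζ + X z, n * ζ + Y z) : ℂ × ℂ) + per m' n' =
        (((α : ℂ) * w.1 + β * w'.1) * ζ, ((α : ℂ) * w.2 + β * w'.2) * ζ) + ((X z, Y z) + per m' n') := by
      have h1 : (m : ℂ) = (α : ℂ) * w.1 + β * w'.1 := by exact_mod_cast congrArg (fun j : ℤ => (j : ℂ)) hα
      have h2 : (n : ℂ) = (α : ℂ) * w.2 + β * w'.2 := by exact_mod_cast congrArg (fun j : ℤ => (j : ℂ)) hβ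
      rw [← add_assoc, ← h1, ← h2]
      refine Prod.ext ?_ ?_
      · simp only [Prod.fst_add]
      · simp only [Prod.snd_add]
    have hz0 : z - z₀ ≠ 0 := sub_ne_zero.2 hzn
    refine ⟨⟨(hb z hz).1, hx, hy, _, f5, f6, f4⟩, ?_, ?_⟩
    · rw [f7, hvec, sgf_add, sgf_comb hB.det, Complex.exp_add, Complex.exp_int_mul, hζd, Complex.exp_log hz0]
    · rw [f8, hvec, taf_add, taf_comb hB.det, Complex.exp_add, Complex.exp_int_mul, hζd, Complex.exp_log hz0]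

/-- `Uk` is closed in the complement of the axes -/
theorem uk_of_freq (h : WebBox p T a b) (hC : Crv T U x y q) {z₀ : ℂ} (hz₀ : z₀ ∈ U) (hx0 : x z₀ ≠ 0) (hy0 : y z₀ ≠ 0)
    (hf : ∃ᶠ z in 𝓝 z₀, z ∈ Uk T k U x y q) : z₀ ∈ Uk T k U x y q := by
  obtain ⟨r, m, n, X, Y, hr, -, -, hb⟩ := hC.loc hz₀
  have hz0 := hb z₀ (mem_ball_self hr)
  have hm : m = 0 := order_zero hz0.2.2.2.1 hx0
  have hn : n = 0 := order_zero hz0.2.2.2.2 hy0
  subst hm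
  subst hn
  simp only [pow_zero, one_mul] at hb hz0
  have hne : ∀ z ∈ ball z₀ r, x z ≠ 0 ∧ y z ≠ 0 := by
    intro z hz
    obtain ⟨-, -, -, h1, h2⟩ := hb z hz
    exact ⟨by rw [h1]; exact Complex.exp_ne_zero _, by rw [h2]; exact Complex.exp_ne_zero _⟩
  have hmem : ∀ z ∈ ball z₀ r, (X z, Y z) ∈ HH := fun z hz =>
    HH_of_exp (hC.x_lt z (hb z hz).1) (hC.y_lt z (hb z hz).1) (hb z hz).2.2.2.1.symm (hb z hz).2.2.2.2.symm
  obtain ⟨i, hi⟩ := h.index (convex_ball z₀ r).isPreconnected ⟨z₀, mem_ball_self hr⟩ (v := fun z => (X z, Y z)) (Q := q)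
    (fun z hz => ((hb z hz).2.1.continuousAt.prodMk (hb z hz).2.2.1.continuousAt).continuousWithinAt) hmem
    (fun z hz => (hC.q_an z (hb z hz).1 (hne z hz).1 (hne z hz).2).continuousAt.continuousWithinAt)
    (fun z hz => hC.root z (hb z hz).1 (hne z hz).1 (hne z hz).2 _ _ (hb z hz).2.2.2.1.symm (hb z hz).2.2.2.2.symm)
  obtain ⟨z₁, ⟨hU₁, hx₁, hy₁, v₁, e1, e2, e3⟩, hz₁⟩ := (hf.and_eventually (ball_mem_nhds z₀ hr)).exists
  obtain ⟨m', n', hmn⟩ := exists_per (v := (X z₁, Y z₁)) (v' := v₁) (e1.trans (hb z₁ hz₁).2.2.2.1) (e2.trans (hb z₁ hz₁).2.2.2.2)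
  have hik : i = (a ^ m' * b ^ n') k := by
    refine h.inj _ (hmem z₁ hz₁) _ _ ?_
    rw [← hi z₁ hz₁, e3, hmn, h.mon k (hmem z₁ hz₁)]
  refine ⟨hz₀, hx0, hy0, (X z₀, Y z₀) + per m' n', ?_, ?_, ?_⟩
  · rw [exp_per₁]
    exact hz0.2.2.2.1.symm
  · rw [exp_per₂]
    exact hz0.2.2.2.2.symm
  · rw [h.mon k (hmem z₀ (mem_ball_self hr)), ← hik]
    exact hi z₀ (mem_ball_self hr)

/-- every point has a sheet -/
theorem exists_sheet (h : WebBox p T a b) (hC : Crv T U x y q) {z₀ : ℂ} (hz₀ : z₀ ∈ U) :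
    ∃ (k : Fin p) (m n : ℕ), (∀ᶠ z in 𝓝[≠] z₀, z ∈ Uk T k U x y q) ∧ analyticOrderAt x z₀ = m ∧ analyticOrderAt y z₀ = n ∧
      (a ^ (m : ℤ) * b ^ (n : ℤ)) k = k := by
  obtain ⟨r, m, n, X, Y, i, hr, hm, hn, hi, hb, hζ⟩ := punc h hC hz₀
  refine ⟨i, m, n, ?_, hm, hn, hi⟩
  have hball : ∀ᶠ z in 𝓝[≠] z₀, z ∈ ball z₀ r ∧ z ≠ z₀ :=
    (eventually_nhdsWithin_of_eventually_nhds (ball_mem_nhds z₀ hr)).and (eventually_mem_nhdsWithin.mono fun z hz => hz)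
  filter_upwards [hball] with z hz
  have hlog : z₀ + Complex.exp (Complex.log (z - z₀)) = z := by
    rw [Complex.exp_log (sub_ne_zero.2 hz.2), add_sub_cancel]
  have h1 := hζ (Complex.log (z - z₀)) (by rw [hlog]; exact hz.1)
  rw [hlog] at h1
  exact ⟨(hb z hz.1).1, h1.1, h1.2.1, _, h1.2.2.1, h1.2.2.2.1, h1.2.2.2.2⟩

/-- sheets in one orbit of the monodromy -/
theorem uk_orbit (h : WebBox p T a b) (hC : Crv T U x y q) (m n : ℤ) (k : Fin p) : Uk T ((a ^ m * b ^ n) k) U x y q = Uk T k U x y q := by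
  ext z
  constructor
  · rintro ⟨h1, h2, h3, v, h4, h5, h6⟩
    have hv := HH_of_exp (hC.x_lt z h1) (hC.y_lt z h1) h4 h5
    exact ⟨h1, h2, h3, v + per m n, by rw [exp_per₁]; exact h4, by rw [exp_per₂]; exact h5, by rw [h.mon k hv]; exact h6⟩
  · rintro ⟨h1, h2, h3, v, h4, h5, h6⟩
    have hv := HH_of_exp (hC.x_lt z h1) (hC.y_lt z h1) h4 h5
    refine ⟨h1, h2, h3, v + per (-m) (-n), by rw [exp_per₁]; exact h4, by rw [exp_per₂]; exact h5, ?_⟩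
    have hv' := HH_add_per hv (-m) (-n)
    rw [← h.mon k hv' m n, add_assoc, ← per_add]
    simpa [per_zero] using h6

/-- the lift -/
structure Lft (T : Fin p → ℂ × ℂ → ℂ) (k : Fin p) (w w' : ℕ × ℕ) (U : Set ℂ) (x y q : ℂ → ℂ) (Ω : Set ℂ) (s t : ℂ → ℂ) : Prop where
  op : IsOpen Ω
  sub : Ω ⊆ U
  s_an : ∀ z ∈ Ω, AnalyticAt ℂ s z
  t_an : ∀ z ∈ Ω, AnalyticAt ℂ t z
  eq_x : ∀ z ∈ Ω, x z = s z ^ w.1 * t z ^ w'.1
  eq_y : ∀ z ∈ Ω, y z = s z ^ w.2 * t z ^ w'.2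
  root : ∀ z ∈ Ω, ∀ σ τ : ℂ, Complex.exp σ = s z → Complex.exp τ = t z → q z = T k (σ * w.1 + τ * w'.1, σ * w.2 + τ * w'.2)
  mem : ∀ z, x z ≠ 0 → y z ≠ 0 → (z ∈ Ω ↔ z ∈ Uk T k U x y q)
  mem0 : ∀ z ∈ U, (x z = 0 ∨ y z = 0) → (z ∈ Ω ↔ (∃ᶠ z' in 𝓝[≠] z, z' ∈ Uk T k U x y q) ∧ ∃ α β : ℕ,
    analyticOrderAt x z = (α * w.1 + β * w'.1 : ℕ) ∧ analyticOrderAt y z = (α * w.2 + β * w'.2 : ℕ))
  closed : ∀ C : Set ℂ, IsClosed C → C ⊆ U → ∀ R : ℝ, IsClosed {z | z ∈ C ∧ z ∈ Ω ∧ ‖s z‖ ≤ R ∧ ‖t z‖ ≤ R}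

theorem det_inj (hd : dt w w' ≠ 0) {α β α' β' : ℤ} (h1 : α * w.1 + β * w'.1 = α' * w.1 + β' * w'.1)
    (h2 : α * w.2 + β * w'.2 = α' * w.2 + β' * w'.2) : α = α' ∧ β = β' := by
  have e1 : (α - α') * dt w w' = 0 := by
    unfold dt
    linear_combination (w'.2 : ℤ) * h1 - (w'.1 : ℤ) * h2
  have e2 : (β - β') * dt w w' = 0 := by
    unfold dt
    linear_combination (w.1 : ℤ) * h2 - (w.2 : ℤ) * h1
  exact ⟨sub_eq_zero.1 ((mul_eq_zero.1 e1).resolve_right hd), sub_eq_zero.1 ((mul_eq_zero.1 e2).resolve_right hd)⟩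

/-- the domain of the lift -/
def Om (T : Fin p → ℂ × ℂ → ℂ) (k : Fin p) (w w' : ℕ × ℕ) (U : Set ℂ) (x y q : ℂ → ℂ) : Set ℂ :=
  {z | z ∈ Uk T k U x y q ∨ (z ∈ U ∧ (x z = 0 ∨ y z = 0) ∧ (∃ᶠ z' in 𝓝[≠] z, z' ∈ Uk T k U x y q) ∧ ∃ α β : ℕ,
    analyticOrderAt x z = (α * w.1 + β * w'.1 : ℕ) ∧ analyticOrderAt y z = (α * w.2 + β * w'.2 : ℕ))}

open Classical in
/-- the first coordinate of the lift -/
def sl (T : Fin p → ℂ × ℂ → ℂ) (k : Fin p) (w w' : ℕ × ℕ) (U : Set ℂ) (x y q : ℂ → ℂ) (z : ℂ) : ℂ :=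
  if z ∈ Uk T k U x y q then s0 T k w w' U x y q z else limUnder (𝓝[≠] z) (s0 T k w w' U x y q)

open Classical in
/-- the second coordinate of the lift -/
def tl (T : Fin p → ℂ × ℂ → ℂ) (k : Fin p) (w w' : ℕ × ℕ) (U : Set ℂ) (x y q : ℂ → ℂ) (z : ℂ) : ℂ :=
  if z ∈ Uk T k U x y q then t0 T k w w' U x y q z else limUnder (𝓝[≠] z) (t0 T k w w' U x y q)

theorem limUnder_of {f F : ℂ → ℂ} {z₀ : ℂ} (hF : ContinuousAt F z₀) (h : ∀ᶠ z in 𝓝[≠] z₀, f z = F z) : limUnder (𝓝[≠] z₀) f = F z₀ := by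
  refine Tendsto.limUnder_eq ?_
  exact (hF.tendsto.mono_left nhdsWithin_le_nhds).congr' (h.mono fun z hz => hz.symm)

/-- the local form of the lift at a limit point of `Uk` with nonnegative exponents -/
theorem loc_punc {z₀ : ℂ} (hz₀ : z₀ ∈ U) (hxy : x z₀ = 0 ∨ y z₀ = 0)
    {r : ℝ} {m n : ℕ} {α β : ℕ} {G H : ℂ → ℂ} (hr : 0 < r) (hm : analyticOrderAt x z₀ = m) (hn : analyticOrderAt y z₀ = n)
    (hα : (m : ℤ) = α * w.1 + β * w'.1) (hβ : (n : ℤ) = α * w.2 + β * w'.2) (hGH : ∀ z ∈ ball z₀ r, AnalyticAt ℂ G z ∧ AnalyticAt ℂ H z)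
    (hp : ∀ z ∈ ball z₀ r, z ≠ z₀ → z ∈ Uk T k U x y q ∧ s0 T k w w' U x y q z = (z - z₀) ^ α * Complex.exp (G z) ∧
        t0 T k w w' U x y q z = (z - z₀) ^ β * Complex.exp (H z)) :
    ∀ z ∈ ball z₀ r, z ∈ Om T k w w' U x y q ∧ sl T k w w' U x y q z = (z - z₀) ^ α * Complex.exp (G z) ∧
        tl T k w w' U x y q z = (z - z₀) ^ β * Complex.exp (H z) := by
  intro z hz
  rcases eq_or_ne z z₀ with rfl | hzn
  · have hball : ∀ᶠ z' in 𝓝[≠] z, z' ∈ ball z r ∧ z' ≠ z :=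
      (eventually_nhdsWithin_of_eventually_nhds (ball_mem_nhds z hr)).and (eventually_mem_nhdsWithin.mono fun z hz => hz)
    have hnot : z ∉ Uk T k U x y q := by
      rintro ⟨-, h1, h2, -⟩
      rcases hxy with h3 | h3
      · exact h1 h3
      · exact h2 h3
    have hGz := (hGH z hz).1
    have hHz := (hGH z hz).2
    refine ⟨Or.inr ⟨hz₀, hxy, (hball.mono fun z' hz' => (hp z' hz'.1 hz'.2).1).frequently, α, β, ?_, ?_⟩, ?_, ?_⟩
    · rw [hm]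
      exact_mod_cast congrArg (fun j : ℕ => (j : ℕ∞)) (by exact_mod_cast hα)
    · rw [hn]
      exact_mod_cast congrArg (fun j : ℕ => (j : ℕ∞)) (by exact_mod_cast hβ)
    · rw [sl, if_neg hnot]
      refine limUnder_of (F := fun z' => (z' - z) ^ α * Complex.exp (G z')) ?_ (hball.mono fun z' hz' => (hp z' hz'.1 hz'.2).2.1)
      exact (((analyticAt_id.sub analyticAt_const).pow _).mul hGz.cexp).continuousAt
    · rw [tl, if_neg hnot]
      refine limUnder_of (F := fun z' => (z' - z) ^ β * Complex.exp (H z')) ?_ (hball.mono fun z' hz' => (hp z' hz'.1 hz'.2).2.2)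
      exact (((analyticAt_id.sub analyticAt_const).pow _).mul hHz.cexp).continuousAt
  · obtain ⟨h1, h2, h3⟩ := hp z hz hzn
    exact ⟨Or.inl h1, by rw [sl, if_pos h1, h2], by rw [tl, if_pos h1, h3]⟩

/-- the local form of the lift -/
theorem loc_lift (h : WebBox p T a b) (hB : Basis a b k w w') (hC : Crv T U x y q) {z₀ : ℂ} (hz₀ : z₀ ∈ Om T k w w' U x y q) :
    ∃ (r : ℝ) (α β : ℕ) (G H : ℂ → ℂ), 0 < r ∧ (∀ z ∈ ball z₀ r, AnalyticAt ℂ G z ∧ AnalyticAt ℂ H z ∧ z ∈ Om T k w w' U x y q ∧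
      sl T k w w' U x y q z = (z - z₀) ^ α * Complex.exp (G z) ∧ tl T k w w' U x y q z = (z - z₀) ^ β * Complex.exp (H z)) ∧
      ∀ z ∈ ball z₀ r, z ≠ z₀ → z ∈ Uk T k U x y q := by
  rcases hz₀ with hz₀ | ⟨hU, hxy, hf, α', β', ho1, ho2⟩
  · obtain ⟨r, G, H, hr, hb⟩ := nbh h hB hC hz₀
    refine ⟨r, 0, 0, G, H, hr, fun z hz => ?_, fun z hz _ => (hb z hz).1⟩
    obtain ⟨h1, h2, h3, h4, h5⟩ := hb z hz
    exact ⟨h2, h3, Or.inl h1, by rw [sl, if_pos h1, h4, pow_zero, one_mul], by rw [tl, if_pos h1, h5, pow_zero, one_mul]⟩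
  · obtain ⟨r, m, n, α, β, G, H, hr, hm, hn, hα, hβ, hGH, hp⟩ := punc_k h hB hC hU hf
    have e1 : m = α' * w.1 + β' * w'.1 := by
      have := hm.symm.trans ho1
      exact_mod_cast this
    have e2 : n = α' * w.2 + β' * w'.2 := by
      have := hn.symm.trans ho2
      exact_mod_cast this
    obtain ⟨rfl, rfl⟩ := det_inj hB.det (α := α) (β := β) (α' := α') (β' := β') (by rw [← hα, e1]; push_cast; ring) (by rw [← hβ, e2]; push_cast; ring)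
    simp only [zpow_natCast] at hp
    exact ⟨r, α', β', G, H, hr, fun z hz => ⟨(hGH z hz).1, (hGH z hz).2, loc_punc hU hxy hr hm hn hα hβ hGH hp z hz⟩,
      fun z hz hzn => (hp z hz hzn).1⟩

theorem eq_of_punct {f g : ℂ → ℂ} {z : ℂ} (hf : ContinuousAt f z) (hg : ContinuousAt g z) (h : ∀ᶠ z' in 𝓝[≠] z, f z' = g z') : f z = g z :=
  tendsto_nhds_unique_of_eventuallyEq (hf.tendsto.mono_left nhdsWithin_le_nhds) (hg.tendsto.mono_left nhdsWithin_le_nhds) h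

theorem Basis.mem_comb (hab : Commute a b) (hB : Basis a b k w w') (α β : ℤ) :
    (a ^ (α * w.1 + β * w'.1) * b ^ (α * w.2 + β * w'.2)) k = k := by
  have h1 : ((w.1 : ℤ), (w.2 : ℤ)) ∈ stab a b hab k := hB.mem
  have h2 : ((w'.1 : ℤ), (w'.2 : ℤ)) ∈ stab a b hab k := hB.mem'
  have h3 := (stab a b hab k).add_mem ((stab a b hab k).zsmul_mem h1 α) ((stab a b hab k).zsmul_mem h2 β)
  have h4 : α • ((w.1 : ℤ), (w.2 : ℤ)) + β • ((w'.1 : ℤ), (w'.2 : ℤ)) = (α * w.1 + β * w'.1, α * w.2 + β * w'.2) := by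
    ext <;> simp
  rw [h4] at h3
  exact h3

/-- values on `Uk` -/
theorem sl_tl (h : WebBox p T a b) (hB : Basis a b k w w') (hC : Crv T U x y q) {z : ℂ} (hz : z ∈ Uk T k U x y q) :
    ∃ v : ℂ × ℂ, v ∈ HH ∧ Complex.exp v.1 = x z ∧ Complex.exp v.2 = y z ∧ q z = T k v ∧ sl T k w w' U x y q z = Complex.exp (sgf w w' v) ∧
      tl T k w w' U x y q z = Complex.exp (taf w w' v) := by
  obtain ⟨h1, h2, h3, v, h4, h5, h6⟩ := id hz
  obtain ⟨e1, e2⟩ := st_eq h hB hC h1 h2 h3 h4 h5 h6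
  exact ⟨v, HH_of_exp (hC.x_lt z h1) (hC.y_lt z h1) h4 h5, h4, h5, h6, by rw [sl, if_pos hz, e1], by rw [tl, if_pos hz, e2]⟩

theorem eq_x_uk (h : WebBox p T a b) (hB : Basis a b k w w') (hC : Crv T U x y q) {z : ℂ} (hz : z ∈ Uk T k U x y q) :
    x z = sl T k w w' U x y q z ^ w.1 * tl T k w w' U x y q z ^ w'.1 ∧ y z = sl T k w w' U x y q z ^ w.2 * tl T k w w' U x y q z ^ w'.2 := by
  obtain ⟨v, -, h4, h5, -, e1, e2⟩ := sl_tl h hB hC hz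
  rw [e1, e2, ← h4, ← h5, ← Complex.exp_nat_mul, ← Complex.exp_nat_mul, ← Complex.exp_nat_mul, ← Complex.exp_nat_mul, ← Complex.exp_add,
    ← Complex.exp_add]
  constructor
  · conv_lhs => rw [← sgf_taf₁ hB.det v]
    congr 1
    ring
  · conv_lhs => rw [← sgf_taf₂ hB.det v]
    congr 1
    ring

theorem le_of_freq {f : ℂ → ℂ} {z : ℂ} {R : ℝ} (hf : ContinuousAt f z) (h : ∃ᶠ z' in 𝓝[≠] z, ‖f z'‖ ≤ R) : ‖f z‖ ≤ R := by
  have h1 : IsClosed {w : ℂ | ‖w‖ ≤ R} := isClosed_le continuous_norm continuous_const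
  exact h1.mem_of_frequently_of_tendsto h (hf.tendsto.mono_left nhdsWithin_le_nhds)

/-- bounded: the exponent is not negative -/
theorem exp_nonneg' {z₀ : ℂ} {s G : ℂ → ℂ} {α : ℤ} {r R : ℝ} (hr : 0 < r) (hG : AnalyticAt ℂ G z₀)
    (hs : ∀ z ∈ ball z₀ r, z ≠ z₀ → s z = (z - z₀) ^ α * Complex.exp (G z)) (hf : ∃ᶠ z in 𝓝[≠] z₀, ‖s z‖ ≤ R) : 0 ≤ α := by
  by_contra hα
  rw [not_le] at hα
  obtain ⟨n, hn⟩ : ∃ n : ℕ, α = -((n : ℤ) + 1) := ⟨(-α - 1).toNat, by omega⟩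
  have hball : ∀ᶠ z' in 𝓝[≠] z₀, z' ∈ ball z₀ r ∧ z' ≠ z₀ :=
    (eventually_nhdsWithin_of_eventually_nhds (ball_mem_nhds z₀ hr)).and (eventually_mem_nhdsWithin.mono fun z hz => hz)
  have h1 : ∃ᶠ z in 𝓝[≠] z₀, ‖Complex.exp (G z)‖ - R * ‖z - z₀‖ ^ (n + 1) ≤ 0 := by
    refine (hf.and_eventually hball).mono fun z hz => ?_
    obtain ⟨h2, h3, h4⟩ := hz
    rw [hs z h3 h4, hn, norm_mul, norm_zpow, zpow_neg] at h2
    have h5 : 0 < ‖z - z₀‖ := norm_pos_iff.2 (sub_ne_zero.2 h4)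
    have h6 : (‖z - z₀‖ ^ ((n : ℤ) + 1)) = ‖z - z₀‖ ^ (n + 1) := by
      rw [← zpow_natCast]
      push_cast
      rfl
    rw [h6, inv_mul_le_iff₀ (pow_pos h5 _)] at h2
    linarith [mul_comm R (‖z - z₀‖ ^ (n + 1))]
  have h2 : ContinuousAt (fun z => ‖Complex.exp (G z)‖ - R * ‖z - z₀‖ ^ (n + 1)) z₀ := by
    have h3 := hG.cexp.continuousAt
    exact h3.norm.sub (by fun_prop)
  have h3 : ‖Complex.exp (G z₀)‖ - R * ‖z₀ - z₀‖ ^ (n + 1) ≤ 0 :=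
    isClosed_Iic.mem_of_frequently_of_tendsto h1 (h2.tendsto.mono_left nhdsWithin_le_nhds)
  rw [sub_self, norm_zero, zero_pow (Nat.succ_ne_zero n), mul_zero, sub_zero] at h3
  exact Complex.exp_ne_zero _ (norm_le_zero_iff.1 h3)

/-- THE LIFT -/
theorem lift (h : WebBox p T a b) (hB : Basis a b k w w') (hC : Crv T U x y q) :
    Lft T k w w' U x y q (Om T k w w' U x y q) (sl T k w w' U x y q) (tl T k w w' U x y q) := by
  have hsub : Om T k w w' U x y q ⊆ U := by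
    rintro z (hz | hz)
    · exact hz.1
    · exact hz.1
  have han : ∀ z ∈ Om T k w w' U x y q, AnalyticAt ℂ (sl T k w w' U x y q) z ∧ AnalyticAt ℂ (tl T k w w' U x y q) z := by
    intro z hz
    obtain ⟨r, α, β, G, H, hr, hb, -⟩ := loc_lift h hB hC hz
    have hz0 := hb z (mem_ball_self hr)
    have h1 : AnalyticAt ℂ (fun z' => (z' - z) ^ α * Complex.exp (G z')) z := ((analyticAt_id.sub analyticAt_const).pow _).mul hz0.1.cexp
    have h2 : AnalyticAt ℂ (fun z' => (z' - z) ^ β * Complex.exp (H z')) z := ((analyticAt_id.sub analyticAt_const).pow _).mul hz0.2.1.cexp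
    exact ⟨h1.congr (Filter.eventually_of_mem (ball_mem_nhds z hr) fun z' hz' => (hb z' hz').2.2.2.1.symm),
      h2.congr (Filter.eventually_of_mem (ball_mem_nhds z hr) fun z' hz' => (hb z' hz').2.2.2.2.symm)⟩
  have hev : ∀ z ∈ Om T k w w' U x y q, ∀ᶠ z' in 𝓝[≠] z, z' ∈ Uk T k U x y q := by
    intro z hz
    obtain ⟨r, α, β, G, H, hr, -, hb⟩ := loc_lift h hB hC hz
    have hball : ∀ᶠ z' in 𝓝[≠] z, z' ∈ ball z r ∧ z' ≠ z :=
      (eventually_nhdsWithin_of_eventually_nhds (ball_mem_nhds z hr)).and (eventually_mem_nhdsWithin.mono fun z hz => hz)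
    exact hball.mono fun z' hz' => hb z' hz'.1 hz'.2
  have hx : ∀ z ∈ Om T k w w' U x y q, x z = sl T k w w' U x y q z ^ w.1 * tl T k w w' U x y q z ^ w'.1 := by
    intro z hz
    exact eq_of_punct (g := fun z => sl T k w w' U x y q z ^ w.1 * tl T k w w' U x y q z ^ w'.1) (hC.x_an z (hsub hz)).continuousAt
      (((han z hz).1.continuousAt.pow _).mul ((han z hz).2.continuousAt.pow _)) ((hev z hz).mono fun z' hz' => (eq_x_uk h hB hC hz').1)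
  have hy : ∀ z ∈ Om T k w w' U x y q, y z = sl T k w w' U x y q z ^ w.2 * tl T k w w' U x y q z ^ w'.2 := by
    intro z hz
    exact eq_of_punct (g := fun z => sl T k w w' U x y q z ^ w.2 * tl T k w w' U x y q z ^ w'.2) (hC.y_an z (hsub hz)).continuousAt
      (((han z hz).1.continuousAt.pow _).mul ((han z hz).2.continuousAt.pow _)) ((hev z hz).mono fun z' hz' => (eq_x_uk h hB hC hz').2)
  have hmem : ∀ z, x z ≠ 0 → y z ≠ 0 → (z ∈ Om T k w w' U x y q ↔ z ∈ Uk T k U x y q) := by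
    intro z h1 h2
    refine ⟨?_, fun h3 => Or.inl h3⟩
    rintro (h3 | ⟨-, h4 | h4, -⟩)
    · exact h3
    · exact absurd h4 h1
    · exact absurd h4 h2
  refine ⟨?_, hsub, fun z hz => (han z hz).1, fun z hz => (han z hz).2, hx, hy, ?_, hmem, ?_, ?_⟩
  · rw [Metric.isOpen_iff]
    intro z hz
    obtain ⟨r, α, β, G, H, hr, hb, -⟩ := loc_lift h hB hC hz
    exact ⟨r, hr, fun z' hz' => (hb z' hz').2.2.1⟩
  · intro z hz σ τ h1 h2
    have hx0 : x z ≠ 0 := by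
      rw [hx z hz, ← h1, ← h2]
      exact mul_ne_zero (pow_ne_zero _ (Complex.exp_ne_zero _)) (pow_ne_zero _ (Complex.exp_ne_zero _))
    have hy0 : y z ≠ 0 := by
      rw [hy z hz, ← h1, ← h2]
      exact mul_ne_zero (pow_ne_zero _ (Complex.exp_ne_zero _)) (pow_ne_zero _ (Complex.exp_ne_zero _))
    obtain ⟨v, hv, -, -, hq, e1, e2⟩ := sl_tl h hB hC ((hmem z hx0 hy0).1 hz)
    obtain ⟨α, hα⟩ := Complex.exp_eq_exp_iff_exists_int.1 (h1.trans e1)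
    obtain ⟨β, hβ⟩ := Complex.exp_eq_exp_iff_exists_int.1 (h2.trans e2)
    have e3 : ((σ * w.1 + τ * w'.1, σ * w.2 + τ * w'.2) : ℂ × ℂ) = v + per (α * w.1 + β * w'.1) (α * w.2 + β * w'.2) := by
      rw [hα, hβ]
      refine Prod.ext ?_ ?_
      · simp only [per, Prod.fst_add]
        push_cast
        linear_combination sgf_taf₁ hB.det v
      · simp only [per, Prod.snd_add]
        push_cast
        linear_combination sgf_taf₂ hB.det v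
    rw [e3, h.mon k hv, hB.mem_comb h.comm, hq]
  · intro z hz hxy
    constructor
    · rintro (h3 | ⟨-, -, h4⟩)
      · rcases hxy with h5 | h5
        · exact absurd h5 h3.2.1
        · exact absurd h5 h3.2.2.1
      · exact h4
    · intro h4
      exact Or.inr ⟨hz, hxy, h4⟩
  · intro C hCl hCU R
    rw [← isOpen_compl_iff, isOpen_iff_eventually]
    intro z hz
    by_contra hcon
    have hf : ∃ᶠ z' in 𝓝 z, z' ∈ {z | z ∈ C ∧ z ∈ Om T k w w' U x y q ∧ ‖sl T k w w' U x y q z‖ ≤ R ∧ ‖tl T k w w' U x y q z‖ ≤ R} := by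
      intro h1
      exact hcon (h1.mono fun z' hz' => hz')
    have hzC : z ∈ C := hCl.mem_of_frequently_of_tendsto (hf.mono fun z' hz' => hz'.1) tendsto_id
    have hzU : z ∈ U := hCU hzC
    have hf' : ∃ᶠ z' in 𝓝[≠] z, z' ∈ {z | z ∈ C ∧ z ∈ Om T k w w' U x y q ∧ ‖sl T k w w' U x y q z‖ ≤ R ∧ ‖tl T k w w' U x y q z‖ ≤ R} := by
      rw [frequently_nhdsWithin_iff]
      refine hf.mono fun z' hz' => ⟨hz', ?_⟩
      rintro rfl
      exact hz hz'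
    have hfk : ∃ᶠ z' in 𝓝[≠] z, z' ∈ Uk T k U x y q ∧ ‖sl T k w w' U x y q z'‖ ≤ R ∧ ‖tl T k w w' U x y q z'‖ ≤ R := by
      refine (hf'.and_eventually (hC.ne z hzU)).mono fun z' hz' => ?_
      exact ⟨(hmem z' hz'.2.1 hz'.2.2).1 hz'.1.2.1, hz'.1.2.2.1, hz'.1.2.2.2⟩
    have hzO : z ∈ Om T k w w' U x y q := by
      by_cases hxy : x z = 0 ∨ y z = 0
      · obtain ⟨r, m, n, α, β, G, H, hr, hm, hn, hα, hβ, hGH, hp⟩ := punc_k h hB hC hzU (hfk.mono fun z' hz' => hz'.1)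
        have hα0 : 0 ≤ α := exp_nonneg' (s := sl T k w w' U x y q) (R := R) hr (hGH z (mem_ball_self hr)).1
          (fun z' hz' hzn => by rw [sl, if_pos (hp z' hz' hzn).1]; exact (hp z' hz' hzn).2.1) (hfk.mono fun z' hz' => hz'.2.1)
        have hβ0 : 0 ≤ β := exp_nonneg' (s := tl T k w w' U x y q) (R := R) hr (hGH z (mem_ball_self hr)).2
          (fun z' hz' hzn => by rw [tl, if_pos (hp z' hz' hzn).1]; exact (hp z' hz' hzn).2.2) (hfk.mono fun z' hz' => hz'.2.2)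
        obtain ⟨α', rfl⟩ := Int.eq_ofNat_of_zero_le hα0
        obtain ⟨β', rfl⟩ := Int.eq_ofNat_of_zero_le hβ0
        refine Or.inr ⟨hzU, hxy, hfk.mono fun z' hz' => hz'.1, α', β', ?_, ?_⟩
        · rw [hm]
          exact_mod_cast congrArg (fun j : ℕ => (j : ℕ∞)) (by exact_mod_cast hα)
        · rw [hn]
          exact_mod_cast congrArg (fun j : ℕ => (j : ℕ∞)) (by exact_mod_cast hβ)
      · rw [not_or] at hxy
        exact Or.inl (uk_of_freq h hC hzU hxy.1 hxy.2 ((hfk.filter_mono nhdsWithin_le_nhds).mono fun z' hz' => hz'.1))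
    refine hz ⟨hzC, hzO, ?_, ?_⟩
    · exact le_of_freq (han z hzO).1.continuousAt (hfk.mono fun z' hz' => hz'.2.1)
    · exact le_of_freq (han z hzO).2.continuousAt (hfk.mono fun z' hz' => hz'.2.2)

theorem sgf_re (hd : dt w w' ≠ 0) {v : ℂ × ℂ} {l l' : ℝ} (h1 : -v.1.re = l * w.1 + l' * w'.1) (h2 : -v.2.re = l * w.2 + l' * w'.2) :
    (sgf w w' v).re = -l ∧ (taf w w' v).re = -l' := by
  have e1 := congrArg Complex.re (sgf_taf₁ hd v)
  have e2 := congrArg Complex.re (sgf_taf₂ hd v)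
  simp only [Complex.add_re, Complex.mul_re, Complex.natCast_re, Complex.natCast_im, mul_zero, sub_zero] at e1 e2
  have hd' : (w.1 : ℝ) * w'.2 - w.2 * w'.1 ≠ 0 := by
    have : ((dt w w' : ℤ) : ℝ) ≠ 0 := by exact_mod_cast hd
    rw [dt] at this
    push_cast at this
    exact this
  constructor
  · apply mul_left_cancel₀ hd'
    linear_combination (w'.2 : ℝ) * (e1 - h1) - (w'.1 : ℝ) * (e2 - h2)
  · apply mul_left_cancel₀ hd'
    linear_combination (w.1 : ℝ) * (e2 - h2) - (w.2 : ℝ) * (e1 - h1)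

/-- THE CHARTS COVER -/
theorem cover (h : WebBox p T a b) (hC : Crv T U x y q) (K : Finset (Fin p)) (hK : ∀ i, ∃ k ∈ K, ∃ m n : ℤ, i = (a ^ m * b ^ n) k)
    (Bs : Fin p → Finset ((ℕ × ℕ) × (ℕ × ℕ))) (hBs : ∀ k ∈ K, ∀ c ∈ Bs k, Basis a b k c.1 c.2)
    (hfan : ∀ k ∈ K, ∀ A B : ℝ, 0 < A → 0 < B → ∃ c ∈ Bs k, ∃ l l' : ℝ, 0 ≤ l ∧ 0 ≤ l' ∧ A = l * c.1.1 + l' * c.2.1 ∧
      B = l * c.1.2 + l' * c.2.2) {z₀ : ℂ} (hz₀ : z₀ ∈ U) :
    ∃ k ∈ K, ∃ c ∈ Bs k, z₀ ∈ Om T k c.1 c.2 U x y q ∧ ‖sl T k c.1 c.2 U x y q z₀‖ ≤ 1 ∧ ‖tl T k c.1 c.2 U x y q z₀‖ ≤ 1 := by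
  obtain ⟨i, m, n, hi, -, -, -⟩ := exists_sheet h hC hz₀
  obtain ⟨k, hk, m', n', rfl⟩ := hK i
  rw [uk_orbit h hC] at hi
  obtain ⟨ρ, hρ, hρU⟩ := Metric.nhds_basis_closedBall.mem_iff.1 (hC.op.mem_nhds hz₀)
  have hall : ∀ᶠ z in 𝓝[≠] z₀, ∃ c ∈ Bs k, z ∈ closedBall z₀ ρ ∧ z ∈ Om T k c.1 c.2 U x y q ∧ ‖sl T k c.1 c.2 U x y q z‖ ≤ 1 ∧
      ‖tl T k c.1 c.2 U x y q z‖ ≤ 1 := by
    filter_upwards [hi, eventually_nhdsWithin_of_eventually_nhds (closedBall_mem_nhds z₀ hρ)] with z hz hzρ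
    obtain ⟨h1, h2, h3, v, h4, h5, h6⟩ := id hz
    have hv : v ∈ HH := HH_of_exp (hC.x_lt z h1) (hC.y_lt z h1) h4 h5
    obtain ⟨c, hc, l, l', hl, hl', e1, e2⟩ := hfan k hk (-v.1.re) (-v.2.re) (by linarith [hv.1]) (by linarith [hv.2])
    obtain ⟨g1, g2⟩ := st_eq h (hBs k hk c hc) hC h1 h2 h3 h4 h5 h6
    obtain ⟨g3, g4⟩ := sgf_re (hBs k hk c hc).det e1 e2
    refine ⟨c, hc, hzρ, Or.inl hz, ?_, ?_⟩
    · rw [sl, if_pos hz, g1, Complex.norm_exp, g3, Real.exp_le_one_iff]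
      linarith
    · rw [tl, if_pos hz, g2, Complex.norm_exp, g4, Real.exp_le_one_iff]
      linarith
  have hex : ∃ c ∈ Bs k, ∃ᶠ z in 𝓝[≠] z₀, z ∈ closedBall z₀ ρ ∧ z ∈ Om T k c.1 c.2 U x y q ∧ ‖sl T k c.1 c.2 U x y q z‖ ≤ 1 ∧
      ‖tl T k c.1 c.2 U x y q z‖ ≤ 1 := by
    by_contra hcon
    have h1 : ∀ᶠ z in 𝓝[≠] z₀, ∀ c ∈ Bs k, ¬(z ∈ closedBall z₀ ρ ∧ z ∈ Om T k c.1 c.2 U x y q ∧ ‖sl T k c.1 c.2 U x y q z‖ ≤ 1 ∧
      ‖tl T k c.1 c.2 U x y q z‖ ≤ 1) := by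
      rw [Filter.eventually_all_finset]
      intro c hc
      exact Filter.not_frequently.1 fun h2 => hcon ⟨c, hc, h2⟩
    have h2 : ∀ᶠ z in 𝓝[≠] z₀, False := by
      filter_upwards [hall, h1] with z hz h3
      obtain ⟨c, hc, h4⟩ := hz
      exact h3 c hc h4
    rw [Filter.eventually_false_iff_eq_bot] at h2
    exact (NormedField.nhdsNE_neBot z₀).ne h2
  obtain ⟨c, hc, hf⟩ := hex
  have hcl := (lift h (hBs k hk c hc) hC).closed (closedBall z₀ ρ) isClosed_closedBall hρU 1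
  have := hcl.mem_of_frequently_of_tendsto (hf.filter_mono nhdsWithin_le_nhds) tendsto_id
  exact ⟨k, hk, c, hc, this.2.1, this.2.2.1, this.2.2.2⟩

end Pool.Agent.MQ3
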