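import Pool.Agent.H94.G6.M05

/-!
# MQ3 Cut: the setting of the energy estimates, the cut-off, the basic inequality
-/

set_option autoImplicit false

open MeasureTheory Topology Filter Metric Laplacian

noncomputable section

namespace Pool.Agent.MQ3

open Pool.Agent.H30M (gg)

/-- the coordinates of a curve in a box -/
structure Crd (U : Set ℂ) (x y : ℂ → ℂ) : Prop where
  isOpen : IsOpen U
  hx : DifferentiableOn ℂ x U
  hy : DifferentiableOn ℂ y U
  closed : ∀ r : ℝ, r < 1 → IsClosed {z | z ∈ U ∧ ‖x z‖ ≤ r ∧ ‖y z‖ ≤ r}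

variable {U : Set ℂ} {x y : ℂ → ℂ} {l : ℂ → ℝ}

theorem Crd.ax (h : Crd U x y) {z : ℂ} (hz : z ∈ U) : AnalyticAt ℂ x z := h.hx.analyticAt (h.isOpen.mem_nhds hz)

theorem Crd.ay (h : Crd U x y) {z : ℂ} (hz : z ∈ U) : AnalyticAt ℂ y z := h.hy.analyticAt (h.isOpen.mem_nhds hz)

theorem Crd.symm (h : Crd U x y) : Crd U y x := by
  refine ⟨h.isOpen, h.hy, h.hx, fun r hr => ?_⟩
  have := h.closed r hr
  convert this using 1
  ext z
  constructor
  · rintro ⟨h1, h2, h3⟩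
    exact ⟨h1, h3, h2⟩
  · rintro ⟨h1, h2, h3⟩
    exact ⟨h1, h3, h2⟩

/-! ## the square of the modulus -/

/-! ## the cut-off -/

/-- a smooth function, `1` for `t ≤ a`, `0` for `b ≤ t` -/
def et (a b t : ℝ) : ℝ := Real.smoothTransition ((b - t) / (b - a))

theorem et_nonneg (a b t : ℝ) : 0 ≤ et a b t := Real.smoothTransition.nonneg _

theorem et_le_one (a b t : ℝ) : et a b t ≤ 1 := Real.smoothTransition.le_one _

theorem et_one {a b t : ℝ} (hab : a < b) (ht : t ≤ a) : et a b t = 1 :=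
  Real.smoothTransition.one_of_one_le (by rw [one_le_div (by linarith)]; linarith)

theorem et_zero {a b t : ℝ} (hab : a < b) (ht : b ≤ t) : et a b t = 0 :=
  Real.smoothTransition.zero_of_nonpos (div_nonpos_of_nonpos_of_nonneg (by linarith) (by linarith))

theorem et_cd (a b : ℝ) : ContDiff ℝ 2 (et a b) :=
  Real.smoothTransition.contDiff.comp ((contDiff_const.sub contDiff_id).div_const _)

theorem et_bd (a b : ℝ) : ∃ C : ℝ, 0 ≤ C ∧ ∀ t, 0 ≤ t → t ≤ 1 → |deriv (et a b) t| ≤ C ∧ |deriv (deriv (et a b)) t| ≤ C := by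
  have h1 : ContDiff ℝ 1 (deriv (et a b)) := by
    have := (et_cd a b).iterate_deriv' 1 1
    simpa using this
  have h0 : Continuous (deriv (et a b)) := h1.continuous
  have h2 : Continuous (deriv (deriv (et a b))) := h1.continuous_deriv le_rfl
  obtain ⟨C1, hC1⟩ := (isCompact_Icc (a := (0 : ℝ)) (b := 1)).exists_bound_of_continuousOn h0.continuousOn
  obtain ⟨C2, hC2⟩ := (isCompact_Icc (a := (0 : ℝ)) (b := 1)).exists_bound_of_continuousOn h2.continuousOn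
  refine ⟨max 0 (max C1 C2), le_max_left _ _, fun t h0 h1 => ⟨?_, ?_⟩⟩
  · exact (hC1 t ⟨h0, h1⟩).trans ((le_max_left _ _).trans (le_max_right _ _))
  · exact (hC2 t ⟨h0, h1⟩).trans ((le_max_right _ _).trans (le_max_right _ _))

open Classical in
/-- the cut-off along the curve -/
def cut (U : Set ℂ) (x y : ℂ → ℂ) (a b : ℝ) (z : ℂ) : ℝ := if z ∈ U then et a b (‖x z‖ ^ 2) * et a b (‖y z‖ ^ 2) else 0

/-- the support of the cut-off -/
def Kb (U : Set ℂ) (x y : ℂ → ℂ) (b : ℝ) : Set ℂ := {z | z ∈ U ∧ ‖x z‖ ^ 2 ≤ b ∧ ‖y z‖ ^ 2 ≤ b}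

theorem cut_nonneg (a b : ℝ) (z : ℂ) : 0 ≤ cut U x y a b z := by
  unfold cut
  split_ifs
  · exact mul_nonneg (et_nonneg _ _ _) (et_nonneg _ _ _)
  · exact le_rfl

theorem cut_le_one (a b : ℝ) (z : ℂ) : cut U x y a b z ≤ 1 := by
  unfold cut
  split_ifs
  · exact mul_le_one₀ (et_le_one _ _ _) (et_nonneg _ _ _) (et_le_one _ _ _)
  · exact zero_le_one

theorem closed_Kb (h : Crd U x y) {b : ℝ} (hb0 : 0 ≤ b) (hb : b < 1) : IsClosed (Kb U x y b) := by
  have := h.closed (√b) (by rw [Real.sqrt_lt' one_pos]; simpa using hb)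
  convert this using 1
  ext z
  simp only [Kb, Set.mem_ofPred_eq]
  rw [Real.le_sqrt (norm_nonneg _) hb0, Real.le_sqrt (norm_nonneg _) hb0]

theorem cut_eq_zero {a b : ℝ} (hab : a < b) {z : ℂ} (hz : z ∉ Kb U x y b) : cut U x y a b z = 0 := by
  unfold cut
  split_ifs with h1
  · by_cases h2 : ‖x z‖ ^ 2 ≤ b
    · by_cases h3 : ‖y z‖ ^ 2 ≤ b
      · exact absurd ⟨h1, h2, h3⟩ hz
      · rw [et_zero hab (not_le.1 h3).le, mul_zero]
    · rw [et_zero hab (not_le.1 h2).le, zero_mul]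
  · rfl

theorem cut_ev_zero (h : Crd U x y) {a b : ℝ} (hb0 : 0 ≤ b) (hab : a < b) (hb : b < 1) {z : ℂ} (hz : z ∉ Kb U x y b) :
    cut U x y a b =ᶠ[𝓝 z] fun _ => 0 := by
  filter_upwards [(closed_Kb h hb0 hb).isOpen_compl.mem_nhds hz] with w hw
  exact cut_eq_zero hab hw

theorem cut_ev (h : Crd U x y) {a b : ℝ} {z : ℂ} (hz : z ∈ U) :
    cut U x y a b =ᶠ[𝓝 z] fun w => et a b (‖x w‖ ^ 2) * et a b (‖y w‖ ^ 2) := by
  filter_upwards [h.isOpen.mem_nhds hz] with w hw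
  unfold cut
  rw [if_pos hw]

/-- the inner region, where the cut-off is `1` -/
def Inn (x y : ℂ → ℂ) (a : ℝ) (z : ℂ) : Prop := ‖x z‖ ^ 2 < a ∧ ‖y z‖ ^ 2 < a

theorem gg_add_le {u v : ℂ → ℝ} {z : ℂ} (hu : DifferentiableAt ℝ u z) (hv : DifferentiableAt ℝ v z) :
    gg (fun w => u w + v w) (fun w => u w + v w) z ≤ 2 * gg u u z + 2 * gg v v z := by
  unfold gg
  rw [fderiv_fun_add hu hv]
  simp only [add_apply]
  nlinarith [sq_nonneg (fderiv ℝ u z 1 - fderiv ℝ v z 1), sq_nonneg (fderiv ℝ u z Complex.I - fderiv ℝ v z Complex.I)]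

theorem abs_mul_le' {p q E Q : ℝ} (hp : |p| ≤ E) (hq : 0 ≤ q) (hQ : q ≤ Q) : |p * q| ≤ E * Q := by
  rw [abs_mul, abs_of_nonneg hq]
  exact mul_le_mul hp hQ hq ((abs_nonneg _).trans hp)

end Pool.Agent.MQ3
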