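import Pool.Agent.H94.G6.M157
import Pool.Agent.H94.G6.M171
import Pool.Agent.H94.G6.M172

/-!
# MQ3 GlobB: the normal crossings model and the lifts of curves
-/

set_option autoImplicit false

open Topology Filter Metric MvPolynomial MeasureTheory

noncomputable section

namespace Pool.Agent.MQ3

open Pool.Agent.H36.BP (EN fs wd)
open Pool.Agent.H17BP (Surface IsChart NodalAt Pr Bihol)
open Pool.Agent.H17EF (projVar coneE)
open Pool.Agent.H62.FC (Homog)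
open Pool.Agent.H17LG.Variety (FunField)
open Pool.Agent.H13.SM (conTan)
open Pool.Agent.H30M (tau)
open Pool.Agent.MQ (lam En)

variable {M : ℕ} {P : Ideal (MvPolynomial (Fin (M + 1)) ℂ)} {RD : MvPolynomial (Fin (M + 1)) ℂ} {S : NCOver P RD}

theorem det_bihol {θ : ℂ × ℂ → ℂ × ℂ} (h : Bihol θ) : (fderiv ℂ θ 0).det ≠ 0 := by
  obtain ⟨θ', h1, h2, h3, -⟩ := h.inv
  have d1 : HasFDerivAt θ (fderiv ℂ θ 0) 0 := h.an.differentiableAt.hasFDerivAt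
  have d2 : HasFDerivAt θ' (fderiv ℂ θ' 0) (θ 0) := by
    rw [h.zero]
    exact h1.differentiableAt.hasFDerivAt
  have d3 : HasFDerivAt (θ' ∘ θ) ((fderiv ℂ θ' 0).comp (fderiv ℂ θ 0)) 0 := d2.comp 0 d1
  have d4 : HasFDerivAt (θ' ∘ θ) (ContinuousLinearMap.id ℂ (ℂ × ℂ)) 0 := by
    refine (hasFDerivAt_id (0 : ℂ × ℂ)).congr_of_eventuallyEq ?_
    filter_upwards [h3] with x hx
    exact hx
  have d5 := d3.unique d4
  intro h0
  have d6 : LinearMap.det ((fderiv ℂ θ' 0 : ℂ × ℂ →ₗ[ℂ] ℂ × ℂ) ∘ₗ (fderiv ℂ θ 0 : ℂ × ℂ →ₗ[ℂ] ℂ × ℂ)) = 1 := by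
    have e1 : ((fderiv ℂ θ' 0 : ℂ × ℂ →ₗ[ℂ] ℂ × ℂ) ∘ₗ (fderiv ℂ θ 0 : ℂ × ℂ →ₗ[ℂ] ℂ × ℂ)) = LinearMap.id :=
      LinearMap.ext fun x => DFunLike.congr_fun d5 x
    rw [e1, LinearMap.det_id]
  rw [LinearMap.det_comp] at d6
  have d7 : LinearMap.det (fderiv ℂ θ 0 : ℂ × ℂ →ₗ[ℂ] ℂ × ℂ) = 0 := h0
  rw [d7, mul_zero] at d6
  exact zero_ne_one d6

theorem PBox.an (B : PBox S) {p : ℂ × ℂ} (hp : p ∈ closedBall (0 : ℂ × ℂ) 1) : AnalyticAt ℂ B.σ p := by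
  obtain ⟨τ, hτ⟩ := B.chart p hp
  have h1 : AnalyticAt ℂ (fun x => B.σ (p + x)) (p - p) := by rw [sub_self]; exact hτ.σ_an
  have h2 : AnalyticAt ℂ (fun x : ℂ × ℂ => x - p) p := analyticAt_id.sub analyticAt_const
  have h3 := AnalyticAt.comp (g := fun x => B.σ (p + x)) (f := fun x : ℂ × ℂ => x - p) h1 h2
  have h4 : ((fun x => B.σ (p + x)) ∘ fun x : ℂ × ℂ => x - p) = B.σ := by
    funext x
    simp
  rwa [h4] at h3

theorem gb_add (p : ℂ × ℂ) : Tendsto (fun x : ℂ × ℂ => p + x) (𝓝 0) (𝓝 p) := by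
  have h1 : Continuous fun x : ℂ × ℂ => p + x := by fun_prop
  simpa using h1.tendsto 0

theorem gb_fderiv {E : Type*} [NormedAddCommGroup E] [NormedSpace ℂ E] (f : ℂ × ℂ → E) (p : ℂ × ℂ) :
    fderiv ℂ (fun x => f (p + x)) 0 = fderiv ℂ f p := by
  rw [fderiv_comp_add_left, add_zero]

/-- the box as a parametrization of the given surface -/
theorem PBox.box (B : PBox S) : NCBox (coneE P) B.ρ := by
  have hcl : ∀ p : ℂ × ℂ, ‖p.1‖ ≤ 1 → ‖p.2‖ ≤ 1 → p ∈ closedBall (0 : ℂ × ℂ) 1 := fun p h1 h2 => by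
    rw [mem_closedBall_zero_iff, Prod.norm_def]
    exact max_le h1 h2
  refine ⟨fun p h1 h2 => B.ρ_an p (hcl p h1 h2), fun p h1 h2 => ?_, fun p hp w a hw => ?_⟩
  · filter_upwards [B.ov p (hcl p h1 h2)] with q hq
    exact (S.mem _ _ hq).2
  · obtain ⟨τ, hτ⟩ := B.chart p (DS_sub hp)
    refine S.imm _ τ hτ ?_ (fun x => B.ρ (p + x)) ?_ ?_ w a ?_
    · show B.σ (p + 0) ∉ S.D
      rw [add_zero]
      exact B.off p hp
    · have h1 : AnalyticAt ℂ B.ρ (p + 0) := by rw [add_zero]; exact B.ρ_an p (DS_sub hp)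
      exact AnalyticAt.comp (g := B.ρ) (f := fun x : ℂ × ℂ => p + x) h1 (analyticAt_const.add analyticAt_id)
    · exact (gb_add p).eventually (B.ov p (DS_sub hp))
    · rw [gb_fderiv, add_zero]
      exact hw

theorem PBox.good (B : PBox S) {p : ℂ × ℂ} (hp : p ∈ DS) : eval (B.ρ p).ofLp RD ≠ 0 := fun h =>
  B.off p hp ((S.div _ _ (B.ov p (DS_sub hp)).self_of_nhds).2 h)

theorem PBox.div' (B : PBox S) {p : ℂ × ℂ} (hp : p ∈ ball B.c B.b) : eval (B.ρ p).ofLp RD = 0 ↔ p.1 * p.2 = 0 :=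
  (S.div _ _ (B.ov p (B.sub' hp)).self_of_nhds).symm.trans (B.div p hp)

theorem PBox.zero_mem (B : PBox S) (h : (0 : ℂ × ℂ) ∈ ball B.c B.b) : B.c = 0 ∧ B.b = 1 := by
  rcases B.ty with h1 | ⟨h1, h2⟩ | ⟨h1, h2⟩
  · exact h1
  · rw [h1, h2, mem_ball, dist_eq_norm, Prod.norm_def, max_lt_iff] at h
    exfalso
    have := h.2
    norm_num at this
  · rw [h1, h2, mem_ball, dist_eq_norm, Prod.norm_def, max_lt_iff] at h
    exfalso
    have := h.2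
    norm_num at this

theorem PBox.side (B : PBox S) (h : (0 : ℂ × ℂ) ∉ ball B.c B.b) {p : ℂ × ℂ} (hp : p ∈ ball B.c B.b) : p.2 ≠ 0 := by
  have hhalf : ∀ z : ℂ, ‖z - 1 / 2‖ < 1 / 4 → z ≠ 0 := by
    rintro z hz rfl
    rw [zero_sub, norm_neg] at hz
    norm_num at hz
  rcases B.ty with ⟨h1, h2⟩ | ⟨h1, h2⟩ | ⟨h1, h2⟩
  · exfalso
    apply h
    rw [h1, h2]
    exact mem_ball_self one_pos
  · rw [h1, h2, mem_ball, dist_eq_norm, Prod.norm_def, max_lt_iff] at hp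
    exact hhalf _ hp.2
  · rw [h1, h2, mem_ball, dist_eq_norm, Prod.norm_def, max_lt_iff] at hp
    exact hhalf _ hp.2

/-- the change of the boxes -/
theorem PBox.iso (A B : PBox S) {p q : ℂ × ℂ} (hp : p ∈ closedBall (0 : ℂ × ℂ) 1) (hq : q ∈ closedBall (0 : ℂ × ℂ) 1) (h : Pr (A.σ p) (B.σ q)) :
    ∃ Φ : ℂ × ℂ → ℂ × ℂ, AnalyticAt ℂ Φ p ∧ Φ p = q ∧ (fderiv ℂ Φ p).det ≠ 0 ∧
    (∀ᶠ x in 𝓝 p, Pr (A.σ x) (B.σ (Φ x))) ∧ ∀ᶠ x in 𝓝 p, ∃ c : ℂ, c ≠ 0 ∧ A.ρ x = c • B.ρ (Φ x) := by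
  obtain ⟨τ, hτ⟩ := A.chart p hp
  obtain ⟨τ', hτ'⟩ := B.chart q hq
  obtain ⟨θ, hθ, hev⟩ := IsChart.trans S.surf.smul hτ' hτ (by simpa using h)
  have hsub : Tendsto (fun x : ℂ × ℂ => x - p) (𝓝 p) (𝓝 0) := by
    have h1 : Continuous fun x : ℂ × ℂ => x - p := by fun_prop
    simpa using h1.tendsto p
  have hΦan : AnalyticAt ℂ (fun x => q + θ (x - p)) p := by
    have h1 : AnalyticAt ℂ θ (p - p) := by rw [sub_self]; exact hθ.an
    exact analyticAt_const.add (AnalyticAt.comp (g := θ) (f := fun x : ℂ × ℂ => x - p) h1 (analyticAt_id.sub analyticAt_const))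
  have hΦ0 : q + θ (p - p) = q := by rw [sub_self, hθ.zero, add_zero]
  have hrel : ∀ᶠ x in 𝓝 p, Pr (A.σ x) (B.σ (q + θ (x - p))) := by
    filter_upwards [hsub.eventually hev] with x hx
    rwa [add_sub_cancel] at hx
  have hΦt : Tendsto (fun x => q + θ (x - p)) (𝓝 p) (𝓝 q) := by
    have := hΦan.continuousAt.tendsto
    rwa [hΦ0] at this
  refine ⟨fun x => q + θ (x - p), hΦan, hΦ0, ?_, hrel, ?_⟩
  · have h1 : fderiv ℂ (fun x => q + θ (x - p)) p = fderiv ℂ θ 0 := by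
      rw [fderiv_const_add, fderiv_comp_sub, sub_self]
    rw [h1]
    exact det_bihol hθ
  · filter_upwards [hrel, A.ov p hp, hΦt.eventually (B.ov q hq)] with x h1 h2 h3
    exact S.uniq _ _ _ _ h1 h2 h3

/-- **the normal crossings model** -/
def ncModel {ι : Type} [Fintype ι] (B : ι → PBox S) (hB : ∀ i j, Pr ((B i).σ (B i).c) ((B j).σ (B j).c) → i = j) : NCModel P RD where
  ι := ι
  ρ := fun i => (B i).ρ
  B := fun i => ball (B i).c (B i).b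
  C := fun i => closedBall (B i).c ((B i).b / 2)
  rel := fun i p j q => Pr ((B i).σ p) ((B j).σ q)
  box := fun i => (B i).box
  good := fun i p hp => (B i).good hp
  isOpen := fun i => isOpen_ball
  sub := fun i => by rw [DD_eq]; exact (B i).sub
  compact := fun i => isCompact_closedBall _ _
  C_sub := fun i => closedBall_subset_ball (half_lt_self (B i).b_pos)
  div := fun i p hp => (B i).div' hp
  corner := by
    intro i h0
    obtain ⟨hc, hb⟩ := (B i).zero_mem h0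
    refine ⟨by rw [DD_eq, hc, hb], fun j p hp hr => ?_⟩
    have h1 : Cr S ((B j).σ p) := ((B i).cr hc).pr hr
    have hp0 : p = 0 := by
      by_contra hp0
      exact (B j).ncr hp hp0 h1
    rw [hp0] at hp hr
    obtain ⟨hc', -⟩ := (B j).zero_mem hp
    refine ⟨(hB i j ?_).symm, hp0⟩
    rw [hc, hc']
    exact hr
  side := fun i h p hp => (B i).side h hp
  refl := fun i p hp q hq => ⟨fun h => (B i).inj p ((B i).sub' hp) q ((B i).sub' hq) h, fun h => by rw [h]; exact Pool.Agent.H17BP.Pr.refl _⟩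
  symm := fun i j p q _ _ h => h.symm
  trans := fun i j k p q r _ _ _ h h' => h.trans h'
  iso := fun i j p hp q hq h => (B i).iso (B j) ((B i).sub' hp) ((B j).sub' hq) h
  sep := by
    intro i j p hp q hq h
    have h1 := not_pr_eventually ((B i).ne_zero ((B i).sub' hp)) ((B j).ne_zero ((B j).sub' hq)) h
    have h2 : Tendsto (fun x : (ℂ × ℂ) × (ℂ × ℂ) => ((B i).σ x.1, (B j).σ x.2)) (𝓝 (p, q)) (𝓝 ((B i).σ p, (B j).σ q)) :=
      (((B i).an ((B i).sub' hp)).continuousAt.tendsto.comp (continuous_fst.tendsto (p, q))).prodMk_nhds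
        (((B j).an ((B j).sub' hq)).continuousAt.tendsto.comp (continuous_snd.tendsto (p, q)))
    exact h2.eventually h1

/-! ## curves in the boxes -/

open Classical in
/-- the coordinates in the box -/
def PBox.crd (B : PBox S) (y : S.V) : ℂ × ℂ := if h : ∃ q ∈ ball B.c B.b, Pr y (B.σ q) then h.choose else 0

theorem PBox.crd_spec (B : PBox S) {y : S.V} (h : ∃ q ∈ ball B.c B.b, Pr y (B.σ q)) : B.crd y ∈ ball B.c B.b ∧ Pr y (B.σ (B.crd y)) := by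
  unfold PBox.crd
  rw [dif_pos h]
  exact h.choose_spec

theorem PBox.crd_eq (B : PBox S) {y : S.V} {q : ℂ × ℂ} (hq : q ∈ ball B.c B.b) (h : Pr y (B.σ q)) : B.crd y = q := by
  obtain ⟨h1, h2⟩ := B.crd_spec ⟨q, hq, h⟩
  exact B.inj _ (B.sub' h1) _ (B.sub' hq) (h2.symm.trans h)

theorem PBox.curve (B : PBox S) {G : ℂ → S.V} (hG : ∀ z, AnalyticAt ℂ G z) (hY : ∀ z, G z ∈ S.Y) {z : ℂ} (hz : ∃ q ∈ ball B.c B.b, Pr (G z) (B.σ q)) :
    (∀ᶠ w in 𝓝 z, ∃ q ∈ ball B.c B.b, Pr (G w) (B.σ q)) ∧ AnalyticAt ℂ (fun w => B.crd (G w)) z := by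
  obtain ⟨q, hq, hr⟩ := hz
  obtain ⟨T, h1, h2, h3⟩ := B.loc (B.sub' hq) hr
  have hGt : Tendsto G (𝓝 z) (𝓝 (G z)) := (hG z).continuousAt.tendsto
  have hφ : AnalyticAt ℂ (fun w => T (G w)) z := AnalyticAt.comp (g := T) (f := G) h1 (hG z)
  have hφt : Tendsto (fun w => T (G w)) (𝓝 z) (𝓝 q) := by
    have := hφ.continuousAt.tendsto
    rwa [h2] at this
  have h4 : ∀ᶠ w in 𝓝 z, T (G w) ∈ ball B.c B.b ∧ Pr (G w) (B.σ (T (G w))) := by
    filter_upwards [hφt.eventually (isOpen_ball.mem_nhds hq), hGt.eventually h3] with w h5 h6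
    exact ⟨h5, h6 (hY w)⟩
  refine ⟨h4.mono fun w hw => ⟨_, hw.1, hw.2⟩, hφ.congr ?_⟩
  filter_upwards [h4] with w hw
  exact (B.crd_eq hw.1 hw.2).symm

theorem speed_gen {N : ℕ} {f : ℂ × ℂ → EN N} {K : Set (ℂ × ℂ)} (hK : IsCompact K) (han : ∀ q ∈ K, AnalyticAt ℂ f q) (h0 : ∀ q ∈ K, f q ≠ 0)
    (hi : ∀ q ∈ K, ∀ (w : ℂ × ℂ) (a : ℂ), fderiv ℂ f q w = a • f q → w = 0) :
    ∃ C : ℝ, 0 ≤ C ∧ ∀ q ∈ K, ∀ w : ℂ × ℂ, ‖w‖ ≤ C * fs (f q) (fderiv ℂ f q w) := by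
  rcases K.eq_empty_or_nonempty with he | ⟨q₁, hq₁⟩
  · exact ⟨0, le_rfl, fun q hq => by rw [he] at hq; exact absurd hq (Set.notMem_empty _)⟩
  have h1 : ((1, 0) : ℂ × ℂ) ∈ sphere (0 : ℂ × ℂ) 1 := by
    rw [mem_sphere_zero_iff_norm, Prod.norm_def]
    simp
  have hne : (K ×ˢ sphere (0 : ℂ × ℂ) 1).Nonempty := ⟨(q₁, (1, 0)), hq₁, h1⟩
  have hcont : ContinuousOn (fun x : (ℂ × ℂ) × (ℂ × ℂ) => fs (f x.1) (fderiv ℂ f x.1 x.2)) (K ×ˢ sphere (0 : ℂ × ℂ) 1) := by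
    rintro ⟨q, w⟩ ⟨hq, -⟩
    have hσ := han q hq
    have hσc : ContinuousAt (fun x : (ℂ × ℂ) × (ℂ × ℂ) => f x.1) (q, w) :=
      ContinuousAt.comp (g := f) (f := fun x : (ℂ × ℂ) × (ℂ × ℂ) => x.1) hσ.continuousAt continuousAt_fst
    have h2 : ContinuousAt (fun x : (ℂ × ℂ) × (ℂ × ℂ) => fderiv ℂ f x.1) (q, w) :=
      ContinuousAt.comp (g := fderiv ℂ f) (f := fun x : (ℂ × ℂ) × (ℂ × ℂ) => x.1) hσ.fderiv.continuousAt continuousAt_fst
    have hdc : ContinuousAt (fun x : (ℂ × ℂ) × (ℂ × ℂ) => fderiv ℂ f x.1 x.2) (q, w) := h2.clm_apply continuousAt_snd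
    have hw : ContinuousAt (fun x : (ℂ × ℂ) × (ℂ × ℂ) => wd (f x.1) (fderiv ℂ f x.1 x.2)) (q, w) :=
      ContinuousAt.comp (g := fun p : EN N × EN N => wd p.1 p.2) (f := fun x : (ℂ × ℂ) × (ℂ × ℂ) => (f x.1, fderiv ℂ f x.1 x.2))
        Pool.Agent.H36.BP.wd_cont.continuousAt (hσc.prodMk hdc)
    have h3 : ContinuousAt (fun x : (ℂ × ℂ) × (ℂ × ℂ) => wd (f x.1) (fderiv ℂ f x.1 x.2) / ‖f x.1‖ ^ 2) (q, w) :=
      hw.div (hσc.norm.pow 2) (pow_ne_zero 2 (norm_ne_zero_iff.2 (h0 q hq)))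
    exact h3.continuousWithinAt
  obtain ⟨⟨q₀, w₀⟩, ⟨hq₀, hw₀⟩, hmin⟩ := (hK.prod (isCompact_sphere (0 : ℂ × ℂ) 1)).exists_isMinOn hne hcont
  obtain ⟨μ, hμ⟩ : ∃ μ : ℝ, μ = fs (f q₀) (fderiv ℂ f q₀ w₀) := ⟨_, rfl⟩
  have hμ0 : 0 < μ := by
    rw [hμ]
    refine lt_of_le_of_ne (Pool.Agent.H36.BP.fs_nonneg _ _) fun h0' => ?_
    have h4 : wd (f q₀) (fderiv ℂ f q₀ w₀) = 0 := by
      have h5 : wd (f q₀) (fderiv ℂ f q₀ w₀) / ‖f q₀‖ ^ 2 = 0 := h0'.symm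
      exact (div_eq_zero_iff.1 h5).resolve_right (pow_ne_zero 2 (norm_ne_zero_iff.2 (h0 q₀ hq₀)))
    obtain ⟨a, ha⟩ := (Pool.Agent.H36.BP.wd_eq_zero (h0 q₀ hq₀)).1 h4
    have h6 : w₀ = 0 := hi q₀ hq₀ w₀ a ha
    have hw₀' := mem_sphere_zero_iff_norm.1 hw₀
    rw [h6, norm_zero] at hw₀'
    exact zero_ne_one hw₀'
  refine ⟨μ⁻¹, by positivity, fun q hq w => ?_⟩
  rcases eq_or_ne w 0 with rfl | hw
  · rw [norm_zero]
    exact mul_nonneg (by positivity) (Pool.Agent.H36.BP.fs_nonneg _ _)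
  have hwn : 0 < ‖w‖ := norm_pos_iff.2 hw
  obtain ⟨u, hu⟩ : ∃ u : ℂ × ℂ, u = ((‖w‖⁻¹ : ℝ) : ℂ) • w := ⟨_, rfl⟩
  have hu1 : u ∈ sphere (0 : ℂ × ℂ) 1 := by
    rw [mem_sphere_zero_iff_norm, hu, norm_smul, Complex.norm_real, norm_inv, norm_norm, inv_mul_cancel₀ hwn.ne']
  have h2 : fs (f q₀) (fderiv ℂ f q₀ w₀) ≤ fs (f q) (fderiv ℂ f q u) := isMinOn_iff.1 hmin (q, u) ⟨hq, hu1⟩
  rw [← hμ, hu, map_smul, Pool.Agent.H36.BP.fs_smul_right, Complex.norm_real, norm_inv, norm_norm] at h2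
  rw [inv_mul_eq_div, le_div_iff₀ hμ0]
  rw [inv_mul_eq_div, le_div_iff₀ hwn] at h2
  linarith

theorem PBox.ean (B : PBox S) {q : ℂ × ℂ} (hq : q ∈ closedBall (0 : ℂ × ℂ) 1) : AnalyticAt ℂ (fun q => S.e (B.σ q)) q :=
  AnalyticAt.comp (g := S.e) (f := B.σ) (S.e.analyticAt _) (B.an hq)

theorem PBox.e_ne (B : PBox S) {q : ℂ × ℂ} (hq : q ∈ closedBall (0 : ℂ × ℂ) 1) : S.e (B.σ q) ≠ 0 := fun h =>
  B.ne_zero hq (S.e_inj (by rw [h, map_zero]))

theorem PBox.e_fderiv (B : PBox S) {q : ℂ × ℂ} (hq : q ∈ closedBall (0 : ℂ × ℂ) 1) (w : ℂ × ℂ) :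
    fderiv ℂ (fun q => S.e (B.σ q)) q w = S.e (fderiv ℂ B.σ q w) := by
  have h1 : HasFDerivAt (fun q => S.e (B.σ q)) (S.e.comp (fderiv ℂ B.σ q)) q := S.e.hasFDerivAt.comp q (B.an hq).differentiableAt.hasFDerivAt
  rw [h1.fderiv]
  rfl

/-- the parametrization is an immersion on compact sets -/
theorem PBox.speed (B : PBox S) {K : Set (ℂ × ℂ)} (hK : IsCompact K) (hKB : K ⊆ closedBall (0 : ℂ × ℂ) 1) :
    ∃ C : ℝ, 0 ≤ C ∧ ∀ q ∈ K, ∀ w : ℂ × ℂ, ‖w‖ ≤ C * fs (S.e (B.σ q)) (fderiv ℂ (fun q => S.e (B.σ q)) q w) := by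
  refine speed_gen hK (fun q hq => B.ean (hKB hq)) (fun q hq => B.e_ne (hKB hq)) fun q hq w a h => ?_
  rw [B.e_fderiv (hKB hq), ← map_smul] at h
  have h5 : fderiv ℂ B.σ q w = a • B.σ q := S.e_inj h
  obtain ⟨τ, hτ⟩ := B.chart q (hKB hq)
  exact chart_imm_zero hτ (w := w) (a := a) (by rw [gb_fderiv, add_zero]; exact h5)

/-- the derivative of the coordinates is bounded by the length of the derivative of the curve -/
theorem PBox.deriv_le (B : PBox S) {G : ℂ → S.V} (hG : ∀ z, AnalyticAt ℂ G z) (hY : ∀ z, G z ∈ S.Y) {z : ℂ} (hz : ∃ q ∈ ball B.c B.b, Pr (G z) (B.σ q)) :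
    lam (fun w => S.e (G w)) z = fs (S.e (B.σ (B.crd (G z)))) (fderiv ℂ (fun q => S.e (B.σ q)) (B.crd (G z)) (deriv (fun w => B.crd (G w)) z)) := by
  obtain ⟨h1, h2⟩ := B.curve hG hY hz
  obtain ⟨h3, h4⟩ := B.crd_spec hz
  have hσ := B.an (B.sub' h3)
  have hσc : AnalyticAt ℂ (fun w => B.σ (B.crd (G w))) z := AnalyticAt.comp (g := B.σ) (f := fun w => B.crd (G w)) hσ h2
  obtain ⟨Λ, hΛ⟩ := gp_dual (B.ne_zero (B.sub' h3))
  have hΛσ : AnalyticAt ℂ (fun w => Λ (B.σ (B.crd (G w)))) z := AnalyticAt.comp (g := Λ) (f := fun w => B.σ (B.crd (G w))) (Λ.analyticAt _) hσc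
  have hΛG : AnalyticAt ℂ (fun w => Λ (G w)) z := AnalyticAt.comp (g := Λ) (f := G) (Λ.analyticAt _) (hG z)
  have ha : AnalyticAt ℂ (fun w => Λ (G w) / Λ (B.σ (B.crd (G w)))) z := hΛG.div hΛσ hΛ
  have hne : ∀ᶠ w in 𝓝 z, Λ (B.σ (B.crd (G w))) ≠ 0 := hΛσ.continuousAt.eventually_ne hΛ
  have heq : ∀ᶠ w in 𝓝 z, S.e (G w) = (Λ (G w) / Λ (B.σ (B.crd (G w)))) • S.e (B.σ (B.crd (G w))) := by
    filter_upwards [h1, hne] with w h5 h6
    obtain ⟨-, a, ha, h7⟩ := B.crd_spec h5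
    have h8 : Λ (G w) / Λ (B.σ (B.crd (G w))) = a := by
      rw [div_eq_iff h6]
      conv_lhs => rw [h7]
      rw [map_smul, smul_eq_mul]
    rw [h8, ← map_smul, ← h7]
  have ha0 : Λ (G z) / Λ (B.σ (B.crd (G z))) ≠ 0 := by
    obtain ⟨a, ha, h7⟩ := h4
    have h8 : Λ (G z) = a * Λ (B.σ (B.crd (G z))) := by
      conv_lhs => rw [h7]
      rw [map_smul, smul_eq_mul]
    rw [h8]
    exact div_ne_zero (mul_ne_zero ha hΛ) hΛ
  have hd : HasDerivAt (fun w => S.e (B.σ (B.crd (G w)))) (fderiv ℂ (fun q => S.e (B.σ q)) (B.crd (G z)) (deriv (fun w => B.crd (G w)) z)) z := by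
    have e1 : HasDerivAt (fun w => B.crd (G w)) (deriv (fun w => B.crd (G w)) z) z := h2.differentiableAt.hasDerivAt
    exact HasFDerivAt.comp_hasDerivAt (f := fun w => B.crd (G w)) (l := fun q => S.e (B.σ q)) z (B.ean (B.sub' h3)).differentiableAt.hasFDerivAt e1
  rw [Pool.Agent.MQ2.lam_smul heq ha.differentiableAt ha0 hd.differentiableAt]
  show fs (S.e (B.σ (B.crd (G z)))) (deriv (fun w => S.e (B.σ (B.crd (G w)))) z) = _
  rw [hd.deriv]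

/-- the curve in the boxes -/
def ncLift {ι : Type} [Fintype ι] (B : ι → PBox S) (hB : ∀ i j, Pr ((B i).σ (B i).c) ((B j).σ (B j).c) → i = j)
    (hcov : ∀ y ∈ S.Y, ∃ i, ∃ q ∈ closedBall (B i).c ((B i).b / 2), Pr y ((B i).σ q)) {F : ℂ → EN M} {G : ℂ → S.V} (h : S.Lift F G) :
    NCLift (ncModel B hB) F where
  U := fun i => {z | ∃ q ∈ ball (B i).c (B i).b, Pr (G z) ((B i).σ q)}
  p := fun i z => (B i).crd (G z)
  isOpen := fun i => isOpen_iff_mem_nhds.2 fun z hz => ((B i).curve h.an (fun z => (S.mem _ _ (h.ov z)).1) hz).1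
  an := fun i z hz => ((B i).curve h.an (fun z => (S.mem _ _ (h.ov z)).1) hz).2
  mem := fun i z hz => ((B i).crd_spec hz).1
  eq := fun i z hz => S.uniq _ _ _ _ ((B i).crd_spec hz).2 (h.ov z) ((B i).ov _ ((B i).sub' ((B i).crd_spec hz).1)).self_of_nhds
  closed := by
    intro i K hKB hK
    have hKB' : K ⊆ ball (B i).c (B i).b := hKB
    have e1 : {z | z ∈ {z | ∃ q ∈ ball (B i).c (B i).b, Pr (G z) ((B i).σ q)} ∧ (B i).crd (G z) ∈ K} = {z | ∃ q ∈ K, Pr (G z) ((B i).σ q)} := by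
      ext z
      constructor
      · rintro ⟨h1, h2⟩
        exact ⟨_, h2, ((B i).crd_spec h1).2⟩
      · rintro ⟨q, hq, hr⟩
        refine ⟨⟨q, hKB' hq, hr⟩, ?_⟩
        rw [(B i).crd_eq (hKB' hq) hr]
        exact hq
    have e2 : IsClosed {z | ∃ q ∈ K, Pr (G z) ((B i).σ q)} := by
      rw [← isOpen_compl_iff, isOpen_iff_mem_nhds]
      intro z hz
      have hz' : ∀ q ∈ K, ¬ Pr (G z) ((B i).σ q) := fun q hq hr => hz ⟨q, hq, hr⟩
      have h1 : ∀ᶠ w in 𝓝 z, ∀ q ∈ K, ¬ Pr (G w) ((B i).σ q) := by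
        refine hK.eventually_forall_of_forall_eventually fun q hq => ?_
        have hG0 : G z ≠ 0 := fun h0 => S.surf.zero (h0 ▸ (S.mem _ _ (h.ov z)).1)
        have h2 := not_pr_eventually hG0 ((B i).ne_zero ((B i).sub' (hKB' hq))) (hz' q hq)
        have h3 : Tendsto (fun x : ℂ × (ℂ × ℂ) => (G x.1, (B i).σ x.2)) (𝓝 (z, q)) (𝓝 (G z, (B i).σ q)) :=
          ((h.an z).continuousAt.tendsto.comp (continuous_fst.tendsto (z, q))).prodMk_nhds
            (((B i).an ((B i).sub' (hKB' hq))).continuousAt.tendsto.comp (continuous_snd.tendsto (z, q)))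
        exact h3.eventually h2
      filter_upwards [h1] with w hw
      rintro ⟨q, hq, hr⟩
      exact hw q hq hr
    exact e1 ▸ e2
  cover := by
    intro z
    obtain ⟨i, q, hq, hr⟩ := hcov (G z) (S.mem _ _ (h.ov z)).1
    have hq' : q ∈ ball (B i).c (B i).b := closedBall_subset_ball (half_lt_self (B i).b_pos) hq
    refine ⟨i, ⟨q, hq', hr⟩, ?_⟩
    show (B i).crd (G z) ∈ closedBall (B i).c ((B i).b / 2)
    rw [(B i).crd_eq hq' hr]
    exact hq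
  rel := fun i j z hi hj => ((B i).crd_spec hi).2.symm.trans ((B j).crd_spec hj).2
  full := by
    intro i j z hi q hq hr
    have h1 : Pr (G z) ((B j).σ q) := ((B i).crd_spec hi).2.trans hr
    exact ⟨⟨q, hq, h1⟩, (B j).crd_eq hq h1⟩

open Classical in
/-- the constants of the boxes -/
def ncCK {ι : Type} [Fintype ι] (B : ι → PBox S) (i : ι) (K : Set (ℂ × ℂ)) : ℝ :=
  if h : IsCompact K ∧ K ⊆ closedBall (0 : ℂ × ℂ) 1 then ((B i).speed h.1 h.2).choose else 0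

theorem ncDens {ι : Type} [Fintype ι] (B : ι → PBox S) (hB : ∀ i j, Pr ((B i).σ (B i).c) ((B j).σ (B j).c) → i = j)
    (hcov : ∀ y ∈ S.Y, ∃ i, ∃ q ∈ closedBall (B i).c ((B i).b / 2), Pr y ((B i).σ q)) {F : ℂ → EN M} {G : ℂ → S.V} (h : S.Lift F G)
    (hF : Differentiable ℂ F) (hF0 : ∀ z, F z ≠ 0) :
    NCDens (ncLift B hB hcov h) (2 + 2 * S.A) (fun i K => ncCK B i K) (fun z => lam F z + lam (fun w => S.e (G w)) z) := by
  have hG0 : ∀ z, S.e (G z) ≠ 0 := fun z h0 => S.surf.zero (by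
    have h1 : G z = 0 := S.e_inj (by rw [h0, map_zero])
    exact h1 ▸ (S.mem _ _ (h.ov z)).1)
  have hGd : Differentiable ℂ fun z => S.e (G z) := fun z => (S.e.hasFDerivAt.comp_hasDerivAt z (h.an z).differentiableAt.hasDerivAt).differentiableAt
  have c1 : Continuous (lam F) := Pool.Agent.MQ.continuous_lam hF hF0
  have c2 : Continuous (lam fun w => S.e (G w)) := Pool.Agent.MQ.continuous_lam hGd hG0
  have n1 : ∀ z, 0 ≤ lam F z := Pool.Agent.MQ.lam_nonneg F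
  have n2 : ∀ z, 0 ≤ lam (fun w => S.e (G w)) z := Pool.Agent.MQ.lam_nonneg _
  refine ⟨c1.add c2, fun z => le_add_of_nonneg_right (n2 z), ?_, ?_⟩
  · obtain ⟨K, hK⟩ := h.en
    refine ⟨2 * K, fun R hR => ?_⟩
    have ct := (Pool.Agent.H30M.contDiff_tau R).continuous
    have hi : ∀ f : ℂ → ℝ, Continuous f → Integrable fun z => tau R z * f z := fun f hf =>
      (ct.mul hf).integrable_of_hasCompactSupport ((Pool.Agent.H30M.hcs_tau hR).mul_right)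
    have i1 : Integrable fun z => tau R z * (2 * lam F z ^ 2) := hi (fun z => 2 * lam F z ^ 2) (continuous_const.mul (c1.pow 2))
    have i2 : Integrable fun z => tau R z * (2 * lam (fun w => S.e (G w)) z ^ 2) :=
      hi (fun z => 2 * lam (fun w => S.e (G w)) z ^ 2) (continuous_const.mul (c2.pow 2))
    have i3 : Integrable fun z => tau R z * (lam F z + lam (fun w => S.e (G w)) z) ^ 2 :=
      hi (fun z => (lam F z + lam (fun w => S.e (G w)) z) ^ 2) ((c1.add c2).pow 2)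
    have h1 : ∫ z, tau R z * (lam F z + lam (fun w => S.e (G w)) z) ^ 2 ≤
        ∫ z, (tau R z * (2 * lam F z ^ 2) + tau R z * (2 * lam (fun w => S.e (G w)) z ^ 2)) := by
      refine integral_mono i3 (i1.add i2) fun z => ?_
      show tau R z * (lam F z + lam (fun w => S.e (G w)) z) ^ 2 ≤ tau R z * (2 * lam F z ^ 2) + tau R z * (2 * lam (fun w => S.e (G w)) z ^ 2)
      rw [← mul_add]
      refine mul_le_mul_of_nonneg_left ?_ (Pool.Agent.H30M.tau_nonneg hR z)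
      nlinarith [sq_nonneg (lam F z - lam (fun w => S.e (G w)) z)]
    rw [integral_add i1 i2] at h1
    have e1 : ∫ z, tau R z * (2 * lam F z ^ 2) = 2 * En F R := by
      rw [En, ← integral_const_mul]
      congr 1
      funext z
      ring
    have e2 : ∫ z, tau R z * (2 * lam (fun w => S.e (G w)) z ^ 2) = 2 * En (fun w => S.e (G w)) R := by
      rw [En, ← integral_const_mul]
      congr 1
      funext z
      ring
    rw [e1, e2] at h1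
    have h2 := hK R hR
    show ∫ z, tau R z * (lam F z + lam (fun w => S.e (G w)) z) ^ 2 ≤ _
    linarith
  · intro i K hKB hK z hz hzK
    have hKB' : K ⊆ closedBall (0 : ℂ × ℂ) 1 := hKB.trans (B i).sub'
    have h1 : IsCompact K ∧ K ⊆ closedBall (0 : ℂ × ℂ) 1 := ⟨hK, hKB'⟩
    have h2 : ncCK B i K = ((B i).speed h1.1 h1.2).choose := by
      unfold ncCK
      rw [dif_pos h1]
    obtain ⟨h3, h4⟩ := ((B i).speed h1.1 h1.2).choose_spec
    rw [← h2] at h3 h4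
    show ‖deriv (fun z => (B i).crd (G z)) z‖ ≤ ncCK B i K * (lam F z + lam (fun w => S.e (G w)) z)
    have h5 := h4 ((B i).crd (G z)) hzK (deriv (fun z => (B i).crd (G z)) z)
    rw [← (B i).deriv_le h.an (fun z => (S.mem _ _ (h.ov z)).1) hz] at h5
    exact h5.trans (mul_le_mul_of_nonneg_left (le_add_of_nonneg_left (n1 z)) h3)

/-- **The normal crossings model.**  The constants `A`, `CK` do not depend on the curve. -/
theorem exists_ncModel {P : Ideal (MvPolynomial (Fin (M + 1)) ℂ)} [P.IsPrime] (hP : Homog P) {z : Fin 2 → FunField P} (hz : IsTranscendenceBasis ℂ z)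
    (hsm : ∀ y : Fin (M + 1) → ℂ, y ≠ 0 → (∀ Q ∈ P, eval y Q = 0) → Module.finrank ℂ (conTan P y) ≤ 3) {RD : MvPolynomial (Fin (M + 1)) ℂ}
    {d : ℕ} (hd : RD.IsHomogeneous d) (hR : RD ∉ P) :
    ∃ (X : NCModel P RD) (A : ℝ) (CK : X.ι → Set (ℂ × ℂ) → ℝ), ∀ F : ℂ → EN M, Differentiable ℂ F → (∀ z, F z ∈ coneE P) →
      (∃ z w, ∀ c : ℂ, F z ≠ c • F w) → (∃ z, eval (F z).ofLp RD ≠ 0) → ∃ (Y : NCLift X F) (lm : ℂ → ℝ), NCDens Y A CK lm := by
  have hX : Surface (coneE P) := Pool.Agent.H90.SG.surface_coneE hP hz hsm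
  obtain ⟨T⟩ := exists_ncSurf_cone hP hz hsm hd hR
  obtain ⟨S, hS⟩ := exists_ncOver hX hd T
  obtain ⟨ι, hι, B, hcov, hB⟩ := exists_family S
  refine ⟨ncModel B hB, 2 + 2 * S.A, fun i K => ncCK B i K, fun F hF hFX _ hne => ?_⟩
  obtain ⟨G, hG⟩ := hS F hF hFX hne
  exact ⟨ncLift B hB hcov hG, _, ncDens B hB hcov hG hF fun z h0 => hX.zero (h0 ▸ hFX z)⟩

end Pool.Agent.MQ3
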